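import Pool.Agent.Lib.MP_c32163_co.DV.Eng

/-!
What the operations of the search engine mean.
-/

namespace Pool.Agent.Lib.MP_c32163_co.DV

theorem ch_true {β : Type} (x y : β) : ch true x y = x := rfl
theorem ch_false {β : Type} (x y : β) : ch false x y = y := rfl

/-- bit `j` of `x` -/
def B (x j : Nat) : Prop := x.testBit j = true

theorem B_tp (c j : Nat) : B (tp c) j ↔ c = j := by
  unfold B tp
  show (2 ^ c).testBit j = true ↔ c = j
  rw [Nat.testBit_two_pow]
  simp

theorem B_lor (x y j : Nat) : B (Nat.lor x y) j ↔ B x j ∨ B y j := by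
  unfold B
  show (x ||| y).testBit j = true ↔ _
  rw [Nat.testBit_or]
  simp

theorem B_without (x b j : Nat) : B (without x b) j ↔ B x j ∧ ¬ B b j := by
  unfold B without
  show (x ^^^ (x &&& b)).testBit j = true ↔ _
  rw [Nat.testBit_xor, Nat.testBit_and]
  cases x.testBit j <;> cases b.testBit j <;> simp

theorem B_xor_tp (x c j : Nat) (h : B x c) : B (Nat.xor x (tp c)) j ↔ B x j ∧ j ≠ c := by
  unfold B tp at *
  show (x ^^^ 2 ^ c).testBit j = true ↔ _
  rw [Nat.testBit_xor, Nat.testBit_two_pow]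
  by_cases hj : c = j
  · subst hj
    simp [h]
  · have : j ≠ c := fun h => hj h.symm
    simp [hj, this]

theorem B_log2 {x : Nat} (h : x ≠ 0) : B x (Nat.log2 x) := Nat.testBit_log2 h

theorem B_top {x : Nat} (h : x ≠ 0) (j : Nat) : B (top x) j ↔ B x j ∧ j ≠ Nat.log2 x :=
  B_xor_tp x _ j (B_log2 h)

theorem top_zero : top 0 = 1 := by decide

theorem top_one : top 1 = 0 := by decide

theorem ne_zero_of_B {x j : Nat} (h : B x j) : x ≠ 0 := by
  rintro rfl
  simp [B] at h

theorem sat_iff (x : Nat) : sat x = true ↔ ∃ i j k, i ≠ j ∧ i ≠ k ∧ j ≠ k ∧ B x i ∧ B x j ∧ B x k := by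
  unfold sat
  rw [force_eq]
  constructor
  · intro h
    have hy : top x ≠ 0 := by
      intro h0
      rw [h0] at h
      exact absurd h (by decide)
    have h1 : Nat.beq (top x) 0 = false := by
      cases hb : Nat.beq (top x) 0
      · rfl
      · exact absurd (Nat.eq_of_beq_eq_true hb) hy
    rw [show Nat.beq (top x) (nat_lit 0) = false from h1, ch_false] at h
    have h2 : 1 ≤ top (top x) := Nat.le_of_ble_eq_true h
    have hx : x ≠ 0 := by
      rintro rfl
      rw [top_zero, top_one] at h2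
      omega
    obtain ⟨k, hk⟩ := Nat.exists_testBit_of_ne_zero (x := top (top x)) (by omega)
    have hk' : B (top (top x)) k := hk
    rw [B_top hy, B_top hx] at hk'
    have hj := B_log2 hy
    rw [B_top hx] at hj
    exact ⟨Nat.log2 x, Nat.log2 (top x), k, fun h => hj.2 h.symm, fun h => hk'.1.2 h.symm,
      fun h => hk'.2 h.symm, B_log2 hx, hj.1, hk'.1.1⟩
  · rintro ⟨i, j, k, hij, hik, hjk, hi, hj, hk⟩
    have hx : x ≠ 0 := ne_zero_of_B hi
    have key : ∃ s t, s ≠ t ∧ B (top x) s ∧ B (top x) t := by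
      simp only [B_top hx]
      by_cases h1 : i = Nat.log2 x
      · exact ⟨j, k, hjk, ⟨hj, by omega⟩, ⟨hk, by omega⟩⟩
      by_cases h2 : j = Nat.log2 x
      · exact ⟨i, k, hik, ⟨hi, h1⟩, ⟨hk, by omega⟩⟩
      exact ⟨i, j, hij, ⟨hi, h1⟩, ⟨hj, h2⟩⟩
    obtain ⟨s, t, hst, hs, ht⟩ := key
    have hy : top x ≠ 0 := ne_zero_of_B hs
    have key2 : ∃ s, B (top (top x)) s := by
      simp only [B_top hy]
      by_cases h1 : s = Nat.log2 (top x)
      · exact ⟨t, ht, fun h => hst (h1.trans h.symm)⟩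
      · exact ⟨s, hs, h1⟩
    obtain ⟨w, hw⟩ := key2
    have hz : top (top x) ≠ 0 := ne_zero_of_B hw
    have h1 : Nat.beq (top x) 0 = false := by
      cases hb : Nat.beq (top x) 0
      · rfl
      · exact absurd (Nat.eq_of_beq_eq_true hb) hy
    rw [show Nat.beq (top x) (nat_lit 0) = false from h1, ch_false]
    exact Nat.ble_eq_true_of_le (Nat.one_le_iff_ne_zero.mpr hz)

/-- adjacency of labels -/
def Hadj (a i j : Nat) : Prop := B (mask a i) j

theorem Hadj_iff (a i j : Nat) : Hadj a i j ↔ j < 24 ∧ B a (24 * i + j + 64) := by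
  unfold Hadj B mask tp
  show ((a % 2 ^ (24 * i + 88)) >>> (24 * i + 64)).testBit j = true ↔ _
  rw [Nat.testBit_shiftRight, Nat.testBit_mod_two_pow]
  simp only [Bool.and_eq_true, decide_eq_true_eq]
  have e : 24 * i + 64 + j = 24 * i + j + 64 := by omega
  rw [e]
  constructor
  · rintro ⟨h1, h2⟩
    exact ⟨by omega, h2⟩
  · rintro ⟨h1, h2⟩
    exact ⟨by omega, h2⟩

theorem B_xor_salt (a x j : Nat) : B (Nat.xor a (salt x)) (j + 64) ↔ B a (j + 64) := by
  unfold B
  show (a ^^^ salt x).testBit (j + 64) = true ↔ _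
  have h : salt x < 2 ^ (j + 64) := by
    have h1 : salt x < 18446744073709551616 := Nat.mod_lt _ (by norm_num)
    have h2 : 2 ^ 64 ≤ 2 ^ (j + 64) := Nat.pow_le_pow_right (by norm_num) (by omega)
    have h3 : (2:ℕ) ^ 64 = 18446744073709551616 := by norm_num
    omega
  rw [Nat.testBit_xor, Nat.testBit_lt_two_pow h]
  simp

theorem Hadj_addE {i c : Nat} (hi : i < 24) (hc : c < 24) (a x y : Nat) :
    Hadj (addE a i c) x y ↔ Hadj a x y ∨ (x = i ∧ y = c) ∨ (x = c ∧ y = i) := by
  rw [Hadj_iff, Hadj_iff]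
  unfold addE
  rw [B_lor, B_lor, B_tp, B_tp, B_xor_salt]
  have e1 : Nat.add (Nat.add (Nat.mul 24 i) c) 64 = 24 * i + c + 64 := rfl
  have e2 : Nat.add (Nat.add (Nat.mul 24 c) i) 64 = 24 * c + i + 64 := rfl
  rw [e1, e2]
  constructor
  · rintro ⟨hy, (h | h) | h⟩
    · exact Or.inl ⟨hy, h⟩
    · right; left; omega
    · right; right; omega
  · rintro (⟨hy, h⟩ | ⟨rfl, rfl⟩ | ⟨rfl, rfl⟩)
    · exact ⟨hy, Or.inl (Or.inl h)⟩
    · exact ⟨hc, Or.inl (Or.inr rfl)⟩
    · exact ⟨hi, Or.inr rfl⟩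

theorem un_succ (a n f : Nat) : un a (n + 1) f =
    if f = 0 then 0 else Nat.lor (mask a (Nat.log2 f)) (un a n (Nat.xor f (tp (Nat.log2 f)))) := by
  have : un a (n + 1) f = ch (Nat.beq f 0) 0 (force (Nat.log2 f) fun c =>
      force (Nat.xor f (tp c)) fun f' => Nat.lor (mask a c) (un a n f')) := rfl
  rw [this]
  simp only [force_eq]
  split_ifs with h
  · subst h; rfl
  · have h1 : Nat.beq f 0 = false := by
      cases hb : Nat.beq f 0
      · rfl
      · exact absurd (Nat.eq_of_beq_eq_true hb) h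
    rw [h1, ch_false]

theorem un_sound (a : Nat) : ∀ n f j, B (un a n f) j → ∃ c, B f c ∧ Hadj a c j
  | 0, f, j, h => by
      have : un a 0 f = 0 := rfl
      rw [this] at h
      simp [B] at h
  | n + 1, f, j, h => by
      rw [un_succ] at h
      split_ifs at h with h0
      · simp [B] at h
      · rw [B_lor] at h
        rcases h with h | h
        · exact ⟨Nat.log2 f, B_log2 h0, h⟩
        · obtain ⟨c, hc, hj⟩ := un_sound a n _ j h
          rw [B_xor_tp _ _ _ (B_log2 h0)] at hc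
          exact ⟨c, hc.1, hj⟩

theorem xor_top_lt {f n : Nat} (h0 : f ≠ 0) (hf : f < 2 ^ (n + 1)) :
    Nat.xor f (tp (Nat.log2 f)) < 2 ^ n := by
  apply Nat.lt_pow_two_of_testBit
  intro i hi
  have h1 : Nat.log2 f < n + 1 := (Nat.log2_lt h0).mpr hf
  by_contra hcon
  have hB : B (Nat.xor f (tp (Nat.log2 f))) i := by simpa [B] using hcon
  rw [B_xor_tp _ _ _ (B_log2 h0)] at hB
  have h2 : i < n + 1 := by
    by_contra h3
    have : f < 2 ^ i := lt_of_lt_of_le hf (Nat.pow_le_pow_right (by norm_num) (by omega))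
    have h4 := Nat.testBit_lt_two_pow this
    rw [B, h4] at hB
    exact absurd hB.1 (by simp)
  have h3 : i = n := by omega
  subst h3
  have h5 : Nat.log2 f = i := by
    have h6 := (Nat.le_log2 h0 (k := i)).mpr (Nat.ge_two_pow_of_testBit hB.1)
    omega
  exact hB.2 h5.symm

theorem un_complete (a n : Nat) : ∀ f c j, f < 2 ^ n → B f c → Hadj a c j → B (un a n f) j := by
  induction n with
  | zero =>
    intro f c j hf hc _
    have : f = 0 := by simpa using hf
    subst this
    exact absurd rfl (ne_zero_of_B hc)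
  | succ n ih =>
    intro f c j hf hc hj
    have h0 : f ≠ 0 := ne_zero_of_B hc
    rw [un_succ, if_neg h0, B_lor]
    by_cases h : c = Nat.log2 f
    · left
      rw [← h]
      exact hj
    · right
      refine ih _ c j (xor_top_lt h0 hf) ?_ hj
      rw [B_xor_tp _ _ _ (B_log2 h0)]
      exact ⟨hc, h⟩

theorem mask_lt (a i : Nat) : mask a i < 2 ^ 24 := by
  apply Nat.lt_pow_two_of_testBit
  intro j hj
  by_contra hcon
  have : Hadj a i j := by simpa [Hadj, B] using hcon
  rw [Hadj_iff] at this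
  omega

end Pool.Agent.Lib.MP_c32163_co.DV
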