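import Pool.Agent.Lib.MP_c32163_co.DV.Two

/-!
The good function of an edge.
-/

open Finset

namespace Pool.Agent.Lib.MP_c32163_co.DV

variable {V : Type*} [Fintype V] [DecidableEq V]

/-- the function of the edge `u v` -/
def ef (W : V → V → ℕ) (u v x : V) : ℕ :=
  (if x = u then 1 else 0) + (if x = v then 1 else 0) + W x u + W x v

lemma ef_le {W : V → V → ℕ} (hs : ∀ u v, W u v = W v u) (hr : ∀ u, ∑ v, W u v = 3)
    (hl : ∀ u, W u u = 0) (h1 : ∀ u v, W u v ≤ 1) {u v : V} (huv : W u v ≠ 0) (x : V) :
    2 * ef W u v x ≤ ∑ y, W x y * ef W u v y := by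
  have hne : u ≠ v := by rintro rfl; exact huv (hl u)
  have hW1 : W u v = 1 := by have := h1 u v; omega
  have hW2 : W v u = 1 := by rw [hs]; exact hW1
  have hsq : ∀ x y, W x y * W x y = W x y := by
    intro x y
    have := h1 x y
    interval_cases W x y <;> rfl
  by_cases hxu : x = u
  · subst hxu
    have e1 : ef W x v x = 2 := by
      unfold ef
      rw [if_pos rfl, if_neg hne, hl, hW1]
    have e2 : ∑ y, W x y * ((if y = v then 1 else 0) + W x y) ≤ ∑ y, W x y * ef W x v y := by
      refine Finset.sum_le_sum fun y _ => Nat.mul_le_mul_left _ ?_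
      unfold ef
      rw [hs y x]
      omega
    have e3 : ∑ y, W x y * ((if y = v then 1 else 0) + W x y) = 4 := by
      have : ∀ y, W x y * ((if y = v then 1 else 0) + W x y) =
          (if y = v then W x y else 0) + W x y := by
        intro y
        rw [mul_add, hsq]
        split_ifs <;> simp
      rw [Finset.sum_congr rfl fun y _ => this y, Finset.sum_add_distrib, hr,
        Finset.sum_ite_eq' Finset.univ v, if_pos (Finset.mem_univ _), hW1]
    rw [e1]
    omega
  · by_cases hxv : x = v
    · subst hxv
      have e1 : ef W u x x = 2 := by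
        unfold ef
        rw [if_neg hxu, if_pos rfl, hl, hW2]
      have e2 : ∑ y, W x y * ((if y = u then 1 else 0) + W x y) ≤ ∑ y, W x y * ef W u x y := by
        refine Finset.sum_le_sum fun y _ => Nat.mul_le_mul_left _ ?_
        unfold ef
        rw [hs y x]
        omega
      have e3 : ∑ y, W x y * ((if y = u then 1 else 0) + W x y) = 4 := by
        have : ∀ y, W x y * ((if y = u then 1 else 0) + W x y) =
            (if y = u then W x y else 0) + W x y := by
          intro y
          rw [mul_add, hsq]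
          split_ifs <;> simp
        rw [Finset.sum_congr rfl fun y _ => this y, Finset.sum_add_distrib, hr,
          Finset.sum_ite_eq' Finset.univ u, if_pos (Finset.mem_univ _), hW2]
      rw [e1]
      omega
    · have e1 : ef W u v x = W x u + W x v := by
        unfold ef
        rw [if_neg hxu, if_neg hxv]
        omega
      have e2 : ∑ y ∈ ({u, v} : Finset V), W x y * ef W u v y ≤ ∑ y, W x y * ef W u v y :=
        Finset.sum_le_sum_of_subset (Finset.subset_univ _)
      have e3 : ef W u v u = 2 := by
        unfold ef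
        rw [if_pos rfl, if_neg hne, hl, hW1]
      have e4 : ef W u v v = 2 := by
        unfold ef
        rw [if_neg hne.symm, if_pos rfl, hl, hW2]
      rw [Finset.sum_pair hne, e3, e4] at e2
      rw [e1]
      omega

lemma edge_good {W : V → V → ℕ} (hs : ∀ u v, W u v = W v u) (hr : ∀ u, ∑ v, W u v = 3)
    (hl : ∀ u, W u u = 0) (h1 : ∀ u v, W u v ≤ 1) {u v : V} (huv : W u v ≠ 0) :
    Good W (fun x => (ef W u v x : ℝ)) := by
  refine ⟨fun _ => Nat.cast_nonneg _, ?_, ?_⟩
  · have h2 : ef W u v u ≤ ∑ x, ef W u v x :=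
      Finset.single_le_sum (f := fun x => ef W u v x) (fun _ _ => Nat.zero_le _)
        (Finset.mem_univ u)
    have h3 : 1 ≤ ef W u v u := by
      unfold ef
      rw [if_pos rfl]
      omega
    have h4 : 0 < ∑ x, ef W u v x := by omega
    exact_mod_cast h4
  · have h2 : 2 * ∑ x, ef W u v x ^ 2 ≤ ∑ x, ∑ y, W x y * (ef W u v x * ef W u v y) := by
      rw [Finset.mul_sum]
      refine Finset.sum_le_sum fun x _ => ?_
      have h3 := Nat.mul_le_mul_left (ef W u v x) (ef_le hs hr hl h1 huv x)
      have h4 : ∑ y, W x y * (ef W u v x * ef W u v y) =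
          ef W u v x * ∑ y, W x y * ef W u v y := by
        rw [Finset.mul_sum]
        exact Finset.sum_congr rfl fun y _ => by ring
      rw [h4]
      calc 2 * ef W u v x ^ 2 = ef W u v x * (2 * ef W u v x) := by ring
        _ ≤ _ := h3
    unfold qf
    beta_reduce
    exact_mod_cast h2

/-- two edges at distance at least four -/
theorem edges_goodPair {W : V → V → ℕ} (hs : ∀ u v, W u v = W v u) (hr : ∀ u, ∑ v, W u v = 3)
    (hl : ∀ u, W u u = 0) (h1 : ∀ u v, W u v ≤ 1) {u v u' v' : V} (huv : W u v ≠ 0)
    (huv' : W u' v' ≠ 0)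
    (hd : ∀ x, ef W u v x ≠ 0 → ef W u' v' x ≠ 0 → False)
    (hn : ∀ x y, ef W u v x ≠ 0 → ef W u' v' y ≠ 0 → W x y ≠ 0 → False) : GoodPair W := by
  refine ⟨_, _, edge_good hs hr hl h1 huv, edge_good hs hr hl h1 huv', ?_, ?_⟩
  · intro x
    by_cases e1 : ef W u v x = 0
    · simp [e1]
    · by_cases e2 : ef W u' v' x = 0
      · simp [e2]
      · exact (hd x e1 e2).elim
  · intro x y
    by_cases e1 : ef W u v x = 0
    · simp [e1]
    · by_cases e2 : ef W u' v' y = 0
      · simp [e2]
      · by_cases e3 : W x y = 0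
        · simp [e3]
        · exact (hn x y e1 e2 e3).elim

end Pool.Agent.Lib.MP_c32163_co.DV
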