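import Pool.Agent.Lib.MP_c32163_co.DV.Eng

/-!
First search: there is a closed walk of length seven through seven labels.
-/

namespace Pool.Agent.Lib.MP_c32163_co.DV

/-- the label lists -/
def lsA : List (List Nat) :=
  [[21, 9, 3, 0, 1, 4, 10], [20, 9, 3, 0, 1, 4, 10], [19, 8, 3, 0, 1, 4, 10],
    [18, 8, 3, 0, 1, 4, 10], [17, 7, 2, 0, 1, 4, 10], [16, 7, 2, 0, 1, 4, 10],
    [15, 6, 2, 0, 1, 4, 10], [14, 6, 2, 0, 1, 4, 10], [21, 9, 3, 0, 1, 4, 11],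
    [20, 9, 3, 0, 1, 4, 11], [19, 8, 3, 0, 1, 4, 11], [18, 8, 3, 0, 1, 4, 11],
    [17, 7, 2, 0, 1, 4, 11], [16, 7, 2, 0, 1, 4, 11], [15, 6, 2, 0, 1, 4, 11],
    [14, 6, 2, 0, 1, 4, 11]]

/-- the test -/
def stA (a : Nat) : Bool := lsA.any (cyc a)

theorem searchA : go 5 stA (fun _ _ => false) 200 0 1 0 1 0 = true := by decide +kernel

end Pool.Agent.Lib.MP_c32163_co.DV
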