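import Pool.Agent.Lib.MP_c32163_co.DV.Eng

/-!
Second search: starting from a cycle of length seven, every cubic graph on 24 vertices without
shorter cycles contains two edges at distance at least four.
-/

namespace Pool.Agent.Lib.MP_c32163_co.DV

/-- the cycle `0, 1, ..., 6` -/
def st : Nat := 13575414559494300616183469936669622740962341610398385524139569624

theorem st_eq : st =
    addE (addE (addE (addE (addE (addE (addE 0 0 1) 1 2) 2 3) 3 4) 4 5) 5 6) 6 0 := by
  decide +kernel

/-- pairs of edges which are tried -/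
def prs : List (Nat × Nat × Nat × Nat) :=
  [(0, 1, 11, 21), (0, 1, 11, 22), (0, 1, 20, 21), (0, 6, 10, 20), (0, 6, 10, 21),
    (1, 2, 12, 21), (1, 2, 12, 22), (1, 2, 21, 22), (1, 8, 20, 23), (1, 8, 21, 23),
    (2, 3, 13, 21), (2, 3, 13, 22), (2, 9, 14, 23), (2, 9, 15, 23), (3, 4, 7, 14),
    (3, 4, 7, 15), (0, 6, 18, 21), (0, 6, 19, 21), (0, 7, 18, 23), (0, 7, 19, 23),
    (2, 3, 14, 22), (2, 3, 15, 22), (4, 5, 8, 16), (4, 5, 8, 17), (5, 6, 9, 18),
    (5, 6, 9, 19)]

theorem searchB : go 5 (fun _ => false) (finOK prs) 200 st 7 0 127 0 = true := by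
  decide +kernel

end Pool.Agent.Lib.MP_c32163_co.DV
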