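import Pool.Agent.Lib.MP_c32163_co.DV.Go
import Pool.Agent.Lib.MP_c32163_co.DV.Edge
import Pool.Agent.Lib.MP_c32163_co.DV.SearchA
import Pool.Agent.Lib.MP_c32163_co.DV.SearchB

/-!
Every symmetric matrix of order 24 with entries in the natural numbers, even diagonal and row sums
three has a good pair.
-/

open Finset

namespace Pool.Agent.Lib.MP_c32163_co.DV

variable {V : Type*} [Fintype V] [DecidableEq V]

lemma not_Hadj_zero (i j : ℕ) : ¬ Hadj 0 i j := by
  rw [Hadj_iff]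
  simp [B]

omit [Fintype V] [DecidableEq V] in
lemma emb_zero (W : V → V → ℕ) {m : ℕ} (hm : m ≤ 24) {φ : ℕ → V}
    (h : ∀ i j, i < m → j < m → φ i = φ j → i = j) : Emb W 0 m φ :=
  ⟨hm, h, fun i j hij => absurd hij (not_Hadj_zero i j), fun i j hij =>
    absurd hij (not_Hadj_zero i j)⟩

lemma cyc_sound {a : ℕ} {l : List ℕ} (h : cyc a l = true) :
    l.length = 7 ∧ l.Nodup ∧ Hadj a (l.getD 0 0) (l.getD 1 0) ∧ Hadj a (l.getD 1 0) (l.getD 2 0) ∧
      Hadj a (l.getD 2 0) (l.getD 3 0) ∧ Hadj a (l.getD 3 0) (l.getD 4 0) ∧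
      Hadj a (l.getD 4 0) (l.getD 5 0) ∧ Hadj a (l.getD 5 0) (l.getD 6 0) ∧
      Hadj a (l.getD 6 0) (l.getD 0 0) := by
  unfold cyc at h
  simp only [Bool.and_eq_true, decide_eq_true_eq, beq_if] at h
  obtain ⟨⟨⟨⟨⟨⟨⟨⟨h0, h1⟩, h2⟩, h3⟩, h4⟩, h5⟩, h6⟩, h7⟩, h8⟩ := h
  exact ⟨h8, h7, h0, h1, h2, h3, h4, h5, h6⟩

/-- a cycle of length seven -/
def Cyc7 (W : V → V → ℕ) : Prop :=
  ∃ ψ : ℕ → V, (∀ i j, i < 7 → j < 7 → ψ i = ψ j → i = j) ∧ W (ψ 0) (ψ 1) ≠ 0 ∧
    W (ψ 1) (ψ 2) ≠ 0 ∧ W (ψ 2) (ψ 3) ≠ 0 ∧ W (ψ 3) (ψ 4) ≠ 0 ∧ W (ψ 4) (ψ 5) ≠ 0 ∧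
    W (ψ 5) (ψ 6) ≠ 0 ∧ W (ψ 6) (ψ 0) ≠ 0

lemma exists_cyc7 {W : V → V → ℕ} (hW : Sparse W 5) : Cyc7 W := by
  have hne : Nonempty V := by
    rw [← Fintype.card_pos_iff, hW.card]
    norm_num
  obtain ⟨x0⟩ := hne
  have hB1 : ∀ j, B 1 j ↔ 0 = j := fun j => B_tp 0 j
  refine go_sound hW stA (fun _ _ => false) (Cyc7 W) ?_ ?_ 200 0 1 0 1 0 (fun _ => x0) ?_ searchA
  · intro a m φ hE h
    unfold stA at h
    rw [List.any_eq_true] at h
    obtain ⟨l, -, hc⟩ := h
    obtain ⟨h8, h7, h0, h1, h2, h3, h4, h5, h6⟩ := cyc_sound hc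
    refine ⟨fun i => φ (l.getD i 0), ?_, (hE.adj _ _ h0).2.2, (hE.adj _ _ h1).2.2,
      (hE.adj _ _ h2).2.2, (hE.adj _ _ h3).2.2, (hE.adj _ _ h4).2.2, (hE.adj _ _ h5).2.2,
      (hE.adj _ _ h6).2.2⟩
    intro i j hi hj hij
    have hlt : ∀ i, i < 7 → l.getD i 0 < m := by
      intro i hi
      interval_cases i
      · exact (hE.adj _ _ h0).1
      · exact (hE.adj _ _ h1).1
      · exact (hE.adj _ _ h2).1
      · exact (hE.adj _ _ h3).1
      · exact (hE.adj _ _ h4).1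
      · exact (hE.adj _ _ h5).1
      · exact (hE.adj _ _ h6).1
    have h9 := hE.inj _ _ (hlt i hi) (hlt j hj) hij
    rw [List.getD_eq_getElem _ _ (by omega), List.getD_eq_getElem _ _ (by omega)] at h9
    exact (List.Nodup.getElem_inj_iff h7).mp h9
  · intro a m φ _ _ h
    exact absurd h (by simp)
  · refine ⟨emb_zero W (by norm_num) (fun i j hi hj _ => by omega), by norm_num,
      fun j hj => absurd hj (by omega), ?_, ?_, fun j hj => absurd hj (not_B_zero j), ?_⟩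
    · intro j hj hB
      rw [hB1] at hB
      omega
    · intro j hB
      rw [hB1] at hB
      omega
    · intro j hj hW'
      exact absurd (hW.loop x0) hW'

lemma ef_label {W : V → V → ℕ} {k : ℕ} (hW : Sparse W k) {a m : ℕ} {φ : ℕ → V}
    (hE : Emb W a m φ) (hsat : ∀ j, j < m → sat (mask a j) = true) {i j : ℕ}
    (hij : Hadj a i j) {x : V} (hx : ef W (φ i) (φ j) x ≠ 0) :
    ∃ p, p < m ∧ φ p = x ∧ B (Nat.lor (mask a i) (mask a j)) p := by
  have hadj := hE.adj _ _ hij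
  by_cases h1 : x = φ i
  · exact ⟨i, hadj.1, h1.symm, (B_lor _ _ _).mpr (Or.inr (hE.symm _ _ hij))⟩
  by_cases h2 : x = φ j
  · exact ⟨j, hadj.2.1, h2.symm, (B_lor _ _ _).mpr (Or.inl hij)⟩
  unfold ef at hx
  rw [if_neg h1, if_neg h2] at hx
  by_cases h3 : W x (φ i) = 0
  · have h4 : W (φ j) x ≠ 0 := by
      rw [hW.symm]
      omega
    obtain ⟨p, hp, h5, h6⟩ := sat_closed hW hE (hsat j hadj.2.1) h4
    exact ⟨p, hp, h6, (B_lor _ _ _).mpr (Or.inr h5)⟩
  · have h4 : W (φ i) x ≠ 0 := by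
      rw [hW.symm]
      exact h3
    obtain ⟨p, hp, h5, h6⟩ := sat_closed hW hE (hsat i hadj.1) h4
    exact ⟨p, hp, h6, (B_lor _ _ _).mpr (Or.inl h5)⟩

lemma land_zero {x y j : ℕ} (h : Nat.land x y = 0) (hx : B x j) (hy : B y j) : False := by
  have h1 : (x &&& y).testBit j = true := by
    rw [Nat.testBit_and]
    unfold B at hx hy
    rw [hx, hy]
    rfl
  have h2 : (x &&& y) = 0 := h
  rw [h2] at h1
  simp at h1

lemma final {W : V → V → ℕ} {k : ℕ} (hW : Sparse W k) {a m : ℕ} {φ : ℕ → V}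
    (hE : Emb W a m φ) (hsat : ∀ j, j < m → sat (mask a j) = true)
    (l : List (Nat × Nat × Nat × Nat)) (h : finOK l a m = true) : GoodPair W := by
  unfold finOK at h
  rw [ch_if] at h
  split_ifs at h with hm
  rw [List.any_eq_true] at h
  obtain ⟨⟨i, j, i', j'⟩, -, h⟩ := h
  unfold pairOK at h
  simp only [force_eq, ch_if] at h
  split_ifs at h with h1 h2
  rw [beq_if] at h
  have h1' : Hadj a i j := h1
  have h2' : Hadj a i' j' := h2
  have hlt : Nat.lor (mask a i) (mask a j) < 2 ^ 24 := Nat.or_lt_two_pow (mask_lt _ _) (mask_lt _ _)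
  refine edges_goodPair hW.symm hW.row hW.loop hW.le1 (hE.adj _ _ h1').2.2 (hE.adj _ _ h2').2.2 ?_ ?_
  · intro x hx hx'
    obtain ⟨p, hp, rfl, hpA⟩ := ef_label hW hE hsat h1' hx
    obtain ⟨p', hp', he, hpB⟩ := ef_label hW hE hsat h2' hx'
    have := hE.inj _ _ hp' hp he
    subst this
    exact land_zero h hpB ((B_lor _ _ _).mpr (Or.inl hpA))
  · intro x y hx hy hxy
    obtain ⟨p, hp, rfl, hpA⟩ := ef_label hW hE hsat h1' hx
    obtain ⟨p', hp', rfl, hpB⟩ := ef_label hW hE hsat h2' hy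
    have h3 := sat_adj hW hE (hsat p hp) hp' hxy
    exact land_zero h hpB ((B_lor _ _ _).mpr (Or.inr (un_complete a 24 _ p p' hlt hpA h3)))

lemma ball_st : ball st 5 0 = 127 := by decide +kernel

lemma B127 (j : ℕ) : B 127 j ↔ j < 7 := by
  unfold B
  have : (127 : ℕ) = 2 ^ 7 - 1 := by norm_num
  rw [this, Nat.testBit_two_pow_sub_one]
  simp

lemma sparse_goodPair {W : V → V → ℕ} (hW : Sparse W 5) : GoodPair W := by
  obtain ⟨ψ, hinj, h0, h1, h2, h3, h4, h5, h6⟩ := exists_cyc7 hW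
  have hE0 : Emb W 0 7 ψ := emb_zero W (by norm_num) hinj
  have hs := hW.symm
  have hE : Emb W st 7 ψ := by
    rw [st_eq]
    exact ((((((hE0.add hs (by norm_num) (by norm_num) h0).add hs (by norm_num) (by norm_num) h1).add
      hs (by norm_num) (by norm_num) h2).add hs (by norm_num) (by norm_num) h3).add hs
      (by norm_num) (by norm_num) h4).add hs (by norm_num) (by norm_num) h5).add hs
      (by norm_num) (by norm_num) h6
  refine go_sound hW (fun _ => false) (finOK prs) (GoodPair W) ?_ ?_ 200 st 7 0 127 0 ψ ?_ searchB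
  · intro a m φ _ h
    exact absurd h (by simp)
  · intro a m φ hE hsat h
    exact final hW hE hsat prs h
  · refine ⟨hE, by norm_num, fun j hj => absurd hj (by omega), ?_, fun j hj => (B127 j).mp hj,
      fun j hj => absurd hj (not_B_zero j), ?_⟩
    · intro j hj hB
      exact absurd ((B127 j).mpr hj) hB
    · intro j hj hW'
      left
      refine close hW hE (by norm_num) ?_ ?_ hW'
      · intro h
        rw [← h] at hW'
        exact hW' (hW.loop _)
      · rw [ball_st]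
        exact (B127 j).mpr hj

/-- the main statement on graphs -/
theorem goodPair {W : V → V → ℕ} (hV : Fintype.card V = 24) (hs : ∀ u v, W u v = W v u)
    (hr : ∀ u, ∑ v, W u v = 3) (he : ∀ u, Even (W u u)) : GoodPair W := by
  by_cases hS : ∃ S : Finset V, S.Nonempty ∧ S.card ≤ 6 ∧ 2 * S.card ≤ q W S
  · obtain ⟨S, h1, h2, h3⟩ := hS
    exact small_good hV hs hr h1 h2 h3
  · push Not at hS
    have hloop : ∀ u, W u u = 0 := by
      intro u
      have h1 := hS {u} (Finset.singleton_nonempty u) (by simp)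
      unfold q at h1
      rw [Finset.sum_singleton, Finset.sum_singleton, Finset.card_singleton] at h1
      obtain ⟨r, hr'⟩ := he u
      omega
    apply sparse_goodPair
    refine ⟨hV, hs, hr, hloop, ?_, hS⟩
    intro u v
    by_cases huv : u = v
    · rw [huv, hloop]
      norm_num
    · have h1 := hS {u, v} ⟨u, Finset.mem_insert_self _ _⟩ (by rw [Finset.card_pair huv]; norm_num)
      unfold q at h1
      rw [Finset.sum_pair huv, Finset.sum_pair huv, Finset.sum_pair huv, Finset.card_pair huv,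
        hloop, hloop, hs v u] at h1
      omega

end Pool.Agent.Lib.MP_c32163_co.DV
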