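import Pool.Agent.Lib.MP_c32163_co.DV.Gen
import Pool.Agent.Lib.MP_c32163_co.DV.Main

/-!
The least non-trivial eigenvalue of an equireplicate design with 24 treatments and 36 blocks of
size two is at most one half.
-/

open Matrix Finset

namespace Pool.Agent.Lib.MP_c32163_co.DV

namespace Design

variable {v b : ℕ} (D : Design v b 2)

/-- weight of a pair of treatments in a block -/
def wB (B : Fin b) (i j : Fin v) : ℕ :=
  if i = j then D.mult i B * (D.mult i B - 1) else D.mult i B * D.mult j B

/-- weight of a pair of treatments -/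
def wt (i j : Fin v) : ℕ := ∑ B, D.wB B i j

lemma wB_symm (B : Fin b) (i j : Fin v) : D.wB B i j = D.wB B j i := by
  unfold wB
  by_cases h : i = j
  · subst h; rfl
  · rw [if_neg h, if_neg (Ne.symm h), mul_comm]

lemma wB_row (B : Fin b) (i : Fin v) : ∑ j, D.wB B i j = D.mult i B := by
  have h1 : ∑ j, D.wB B i j + D.mult i B = 2 * D.mult i B := by
    have h2 : ∑ j, D.mult i B * D.mult j B = 2 * D.mult i B := by
      rw [← Finset.mul_sum, D.sum_mult B, mul_comm]
    rw [← h2]
    have h3 : ∀ j, D.mult i B * D.mult j B = D.wB B i j + if i = j then D.mult i B else 0 := by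
      intro j
      unfold wB
      by_cases h : i = j
      · subst h
        rw [if_pos rfl, if_pos rfl]
        cases D.mult i B with
        | zero => rfl
        | succ n =>
          rw [Nat.add_sub_cancel]
          ring
      · rw [if_neg h, if_neg h, add_zero]
    rw [Finset.sum_congr rfl fun j _ => h3 j, Finset.sum_add_distrib,
      Finset.sum_ite_eq Finset.univ i, if_pos (Finset.mem_univ _)]
  omega

lemma wt_symm (i j : Fin v) : D.wt i j = D.wt j i :=
  Finset.sum_congr rfl fun B _ => D.wB_symm B i j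

lemma wt_row (i : Fin v) : ∑ j, D.wt i j = D.rep i := by
  unfold wt rep
  rw [Finset.sum_comm]
  exact Finset.sum_congr rfl fun B _ => D.wB_row B i

lemma wt_even (i : Fin v) : Even (D.wt i i) := by
  unfold wt
  refine Finset.sum_induction _ Even (fun a b => Even.add) (by simp) ?_
  intro B _
  unfold wB
  rw [if_pos rfl]
  exact Nat.even_mul_pred_self _

lemma wt_form (x : Fin v → ℝ) : x ⬝ᵥ (D.info *ᵥ x) =
    4⁻¹ * ∑ i, ∑ j, (D.wt i j : ℝ) * (x i - x j) ^ 2 := by
  rw [form_eq' D (by norm_num)]
  have h1 : (2 * ((2 : ℕ) : ℝ))⁻¹ = 4⁻¹ := by norm_num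
  rw [h1]
  congr 1
  have h2 : ∀ i j, (D.wt i j : ℝ) * (x i - x j) ^ 2 =
      ∑ B, (D.mult i B : ℝ) * (D.mult j B : ℝ) * (x i - x j) ^ 2 := by
    intro i j
    unfold wt
    push_cast
    rw [Finset.sum_mul]
    refine Finset.sum_congr rfl fun B _ => ?_
    unfold wB
    by_cases h : i = j
    · subst h; simp
    · rw [if_neg h]; push_cast; ring
  simp only [h2]
  rw [Finset.sum_comm]
  refine Finset.sum_congr rfl fun i _ => ?_
  rw [Finset.sum_comm]

end Design

lemma rep_three (D : Design 24 36 2) (h : D.Equireplicate) (i : Fin 24) : D.rep i = 3 := by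
  have h1 : ∑ j, D.rep j = 72 := by
    unfold Design.rep
    rw [Finset.sum_comm, Finset.sum_congr rfl fun B _ => D.sum_mult B]
    simp
  rw [Finset.sum_congr rfl fun j _ => h j i] at h1
  simp only [Finset.sum_const, Finset.card_univ, Fintype.card_fin, smul_eq_mul] at h1
  omega

/-- the bound -/
theorem eVal_le_half (D : Design 24 36 2) (h : D.Equireplicate) : D.eVal ≤ 1 / 2 := by
  have hr : ∀ i, ∑ j, D.wt i j = 3 := fun i => by rw [D.wt_row, rep_three D h]
  have hg := goodPair (W := D.wt) (by simp) D.wt_symm hr D.wt_even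
  obtain ⟨y, hy0, hy1, hy2⟩ := hg.test D.wt_symm hr
  apply D.eVal_le
  refine D.exists_eig_le (by norm_num) (by norm_num) (ι := Unit) (fun _ => y) (fun _ => hy0) ()
    hy1 (by norm_num) ?_
  rw [Finset.univ_unique, Finset.sum_singleton, D.wt_form]
  have h3 : y ⬝ᵥ y = ∑ u, y u ^ 2 := by
    simp only [dotProduct]
    exact Finset.sum_congr rfl fun u _ => by ring
  rw [h3]
  linarith

end Pool.Agent.Lib.MP_c32163_co.DV
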