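import Mathlib

/-!
Block designs, their information matrix, `E`-optimality among equireplicate designs, regular-graph
designs, pairwise variances.
-/

open Matrix Finset

namespace Pool.Agent.Lib.MP_c32163_co.DV

/-- A block design with `b` blocks, each block a multiset of `k` treatments from `Fin v`. -/
structure Design (v b k : ℕ) where
  block : Fin b → Multiset (Fin v)
  card_block : ∀ B, Multiset.card (block B) = k

namespace Design

variable {v b k : ℕ} (D : Design v b k)

/-- `n_iB`, the multiplicity of treatment `i` in block `B`. -/
def mult (i : Fin v) (B : Fin b) : ℕ := (D.block B).count i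

/-- `r_i`, the replication of treatment `i`. -/
def rep (i : Fin v) : ℕ := ∑ B, D.mult i B

/-- `λ_ij`, the concurrence of treatments `i` and `j`. -/
def conc (i j : Fin v) : ℕ := ∑ B, D.mult i B * D.mult j B

/-- Connected design: the concurrence graph (two distinct treatments adjacent when their
concurrence is positive) is connected. -/
def Connected : Prop := (SimpleGraph.fromRel fun i j : Fin v => 0 < D.conc i j).Connected

/-- Equireplicate: all replications are equal. -/
def Equireplicate : Prop := ∀ i j, D.rep i = D.rep j

/-- Binary: all multiplicities are at most one. -/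
def Binary : Prop := ∀ i B, D.mult i B ≤ 1

/-- `λ = ⌊r (k - 1) / (v - 1)⌋` with `r = ⌊b k / v⌋`. -/
def lam (_ : Design v b k) : ℕ := b * k / v * (k - 1) / (v - 1)

/-- Regular-graph design: binary, equireplicate, and every concurrence of two distinct treatments
is `λ` or `λ + 1`. -/
def IsRegularGraph : Prop :=
  D.Binary ∧ D.Equireplicate ∧ ∀ i j, i ≠ j → D.conc i j = D.lam ∨ D.conc i j = D.lam + 1

/-- The graph of a regular-graph design: distinct treatments with concurrence `λ + 1` are
adjacent. -/
def graph : SimpleGraph (Fin v) := SimpleGraph.fromRel fun i j => D.conc i j = D.lam + 1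

/-- The incidence matrix `N = (n_iB)`. -/
def inc : Matrix (Fin v) (Fin b) ℝ := Matrix.of fun i B => (D.mult i B : ℝ)

/-- The information matrix `C = R - k⁻¹ N Nᵀ`, `R = diag(r_i)`. -/
noncomputable def info : Matrix (Fin v) (Fin v) ℝ :=
  Matrix.diagonal (fun i => (D.rep i : ℝ)) - (k : ℝ)⁻¹ • (D.inc * D.incᵀ)

/-- The non-trivial eigenvalues of `C` with multiplicity: all roots of its characteristic
polynomial except one copy of the trivial eigenvalue `0`. -/
noncomputable def eigs : Multiset ℝ := D.info.charpoly.roots.erase 0

/-- The least non-trivial eigenvalue `θ_1`. -/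
noncomputable def eVal : ℝ := sInf {t | t ∈ D.eigs}

/-- `E`-optimal among the equireplicate designs in `D(v,b,k)`: connected, equireplicate, and `θ_1`
is maximal among all connected equireplicate designs with the same `v`, `b`, `k`. -/
def EOptimal : Prop :=
  D.Connected ∧ D.Equireplicate ∧
    ∀ D' : Design v b k, D'.Connected → D'.Equireplicate → D'.eVal ≤ D.eVal

/-- `G` is a generalised inverse `C⁻` of the information matrix: `C G C = C`. -/
def IsGInv (G : Matrix (Fin v) (Fin v) ℝ) : Prop := D.info * G * D.info = D.info

end Design

/-- `(e_i - e_j)ᵀ G (e_i - e_j)`; for a generalised inverse `G` of the information matrix this is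
the pairwise variance `V_ij`. -/
noncomputable def pairVar {v : ℕ} (G : Matrix (Fin v) (Fin v) ℝ) (i j : Fin v) : ℝ :=
  (Pi.single i 1 - Pi.single j 1) ⬝ᵥ (G *ᵥ (Pi.single i 1 - Pi.single j 1))

end Pool.Agent.Lib.MP_c32163_co.DV
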