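import Mathlib

/-!
A search engine for cubic graphs on 24 vertices without short cycles, evaluated by the kernel.
A part of a graph on the labels `0, ..., m - 1` is one number `a`: the labels `i`, `j` are adjacent
iff bit `64 + 24 i + j` of `a` is set; the lowest 64 bits are only a checksum (different graphs get
numbers with different low bits, which keeps the tables of the kernel fast).
-/

namespace Pool.Agent.Lib.MP_c32163_co.DV

/-- evaluate the argument first -/
def force {β : Type} (x : Nat) (k : Nat → β) : β :=
  Nat.rec (k (nat_lit 0)) (fun p _ => k (Nat.succ p)) x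

theorem force_eq {β : Type} (x : Nat) (k : Nat → β) : force x k = k x := by
  cases x <;> rfl

/-- the power of two -/
def tp (c : Nat) : Nat := Nat.pow (nat_lit 2) c

/-- remove the highest bit -/
def top (x : Nat) : Nat := Nat.xor x (tp (Nat.log2 x))

/-- the bits of `x` which are not bits of `b` -/
def without (x b : Nat) : Nat := Nat.xor x (Nat.land x b)

/-- the neighbours of the label `i` -/
def mask (a i : Nat) : Nat :=
  Nat.shiftRight (Nat.mod a (tp (Nat.add (Nat.mul (nat_lit 24) i) (nat_lit 88))))
    (Nat.add (Nat.mul (nat_lit 24) i) (nat_lit 64))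

/-- choice -/
def ch {β : Type} (c : Bool) (x y : β) : β := Bool.rec y x c

/-- at least three bits -/
def sat (x : Nat) : Bool :=
  force (top x) fun y => ch (Nat.beq y (nat_lit 0)) false (Nat.ble (nat_lit 1) (top y))

/-- union of the neighbourhoods of the labels in `f` -/
def un (a : Nat) (fuel : Nat) : Nat → Nat :=
  Nat.rec (fun _ => nat_lit 0) (fun _ ih f =>
    ch (Nat.beq f (nat_lit 0)) (nat_lit 0)
      (force (Nat.log2 f) fun c => force (Nat.xor f (tp c)) fun f' =>
        Nat.lor (mask a c) (ih f'))) fuel

/-- one step of the ball: visited set `b`, frontier `f` -/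
def grow (a : Nat) (k : Nat) : Nat → Nat → Nat :=
  Nat.rec (fun b _ => b) (fun _ ih b f =>
    force (un a (nat_lit 24) f) fun x =>
      force (without x b) fun f' => force (Nat.lor b f') fun b' => ih b' f') k

/-- labels at distance at most `k` from `i` -/
def ball (a k i : Nat) : Nat := grow a k (tp i) (tp i)

/-- checksum contribution of an edge -/
def salt (x : Nat) : Nat :=
  Nat.mod (Nat.mul (Nat.succ x) (nat_lit 11400714819323198485)) (nat_lit 18446744073709551616)

/-- add the edge `i c` -/
def addE (a i c : Nat) : Nat :=
  Nat.lor (Nat.lor (Nat.xor a (salt (Nat.add (Nat.mul (nat_lit 24) i) c)))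
    (tp (Nat.add (Nat.add (Nat.mul (nat_lit 24) i) c) (nat_lit 64))))
    (tp (Nat.add (Nat.add (Nat.mul (nat_lit 24) c) i) (nat_lit 64)))

/-- one step of the search: the labels below `i` have all their neighbours, the neighbours of `i`
are being completed, `us` contains the labels with less than three neighbours, `cand` the labels
which can still be neighbours of `i` -/
def step (k : Nat) (stopE : Nat → Bool) (stopF : Nat → Nat → Bool)
    (ih : Nat → Nat → Nat → Nat → Nat → Bool) (a m i us cand : Nat) : Bool :=
  ch (sat (mask a i))
    (ch (Nat.beq (Nat.succ i) m) (stopF a m)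
      (force (Nat.succ i) fun i' =>
        force (without us (tp i)) fun us' =>
        ch (sat (mask a i')) (ih a m i' us' (nat_lit 0))
        (force (without us' (ball a k i')) fun c' => ih a m i' us' c')))
    (ch (Nat.beq cand (nat_lit 0))
      (ch (Nat.beq m (nat_lit 24)) true
        (force (addE a i m) fun a' => force (Nat.succ m) fun m' =>
          force (Nat.lor us (tp m)) fun us' => ih a' m' i us' (nat_lit 0)))
      (force (Nat.log2 cand) fun c =>
        force (Nat.xor cand (tp c)) fun r =>
        force (addE a i c) fun a' =>
        ch (ch (stopE a') true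
            (force (ch (sat (mask a' c)) (without us (tp c)) us) fun us' =>
              ch (Nat.beq r (nat_lit 0)) (ih a' m i us' (nat_lit 0))
              (ch (sat (mask a' i)) (ih a' m i us' (nat_lit 0))
                (force (without r (ball a' k i)) fun c' => ih a' m i us' c'))))
          (ih a m i us r) false))

/-- the search -/
def go (k : Nat) (stopE : Nat → Bool) (stopF : Nat → Nat → Bool) (fuel : Nat) :
    Nat → Nat → Nat → Nat → Nat → Bool :=
  Nat.rec (fun _ _ _ _ _ => false) (fun _ ih => step k stopE stopF ih) fuel

/-- the check at the end: two edges at distance at least four -/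
def pairOK (a : Nat) (t : Nat × Nat × Nat × Nat) : Bool :=
  ch ((mask a t.1).testBit t.2.1) (ch ((mask a t.2.2.1).testBit t.2.2.2)
    (force (Nat.lor (mask a t.1) (mask a t.2.1)) fun A =>
      force (Nat.lor (mask a t.2.2.1) (mask a t.2.2.2)) fun B =>
        Nat.beq (Nat.land B (Nat.lor A (un a (nat_lit 24) A))) (nat_lit 0)) false) false

/-- at the end -/
def finOK (l : List (Nat × Nat × Nat × Nat)) (a m : Nat) : Bool :=
  ch (Nat.beq m (nat_lit 24)) (l.any (pairOK a)) false

/-- the labels in `l` form a closed walk -/
def cyc (a : Nat) (l : List Nat) : Bool :=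
  (mask a (l.getD 0 0)).testBit (l.getD 1 0) && (mask a (l.getD 1 0)).testBit (l.getD 2 0) &&
  (mask a (l.getD 2 0)).testBit (l.getD 3 0) && (mask a (l.getD 3 0)).testBit (l.getD 4 0) &&
  (mask a (l.getD 4 0)).testBit (l.getD 5 0) && (mask a (l.getD 5 0)).testBit (l.getD 6 0) &&
  (mask a (l.getD 6 0)).testBit (l.getD 0 0) && decide l.Nodup && Nat.beq l.length 7

end Pool.Agent.Lib.MP_c32163_co.DV
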