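import Pool.Agent.Lib.MP_c32163_co.DV.ExCert
import Pool.Agent.Lib.MP_c32163_co.DV.Bound

/-!
The example is `E`-optimal among equireplicate designs; its distances and pairwise variances.
-/

open Matrix Finset

namespace Pool.Agent.Lib.MP_c32163_co.DV

lemma ex_rep (i : Fin 24) : ex.rep i = 3 := by
  unfold Design.rep
  simp only [ex_mult]
  exact rep_tab i

lemma ex_conc (i j : Fin 24) : ex.conc i j = cN i j := by
  unfold Design.conc
  simp only [ex_mult]
  exact conc_tab i j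

lemma ex_lam : ex.lam = 0 := by
  unfold Design.lam
  norm_num

lemma ex_regular : ex.IsRegularGraph := by
  refine ⟨fun i B => ?_, fun i j => by rw [ex_rep, ex_rep], fun i j hij => ?_⟩
  · rw [ex_mult]
    exact mult_le i B
  · rw [ex_conc, ex_lam]
    unfold cN
    rw [if_neg hij]
    split_ifs
    · right; rfl
    · left; rfl

lemma ex_adj (i j : Fin 24) : ex.graph.Adj i j ↔ i ≠ j ∧ cN i j = 1 := by
  unfold Design.graph
  rw [SimpleGraph.fromRel_adj, ex_conc, ex_conc, ex_lam, cN_symm j i]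
  simp

lemma ex_connected : ex.Connected := by
  have key : ∀ d, ∀ i : Fin 24, dep0.getD i.val 0 = d →
      (SimpleGraph.fromRel fun i j : Fin 24 => 0 < ex.conc i j).Reachable 0 i := by
    intro d
    induction d with
    | zero =>
      intro i hi
      rw [(dep0_tab i).1 hi]
    | succ d ih =>
      intro i hi
      obtain ⟨j, h1, h2, h3⟩ := (dep0_tab i).2 (by omega)
      refine (ih j (by omega)).trans (SimpleGraph.Adj.reachable ?_)
      rw [SimpleGraph.fromRel_adj]
      refine ⟨h2.symm, Or.inr ?_⟩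
      rw [ex_conc, h1]
      norm_num
  unfold Design.Connected
  exact { preconnected := fun i j => (key _ i rfl).symm.trans (key _ j rfl)
          nonempty := ⟨0⟩ }

lemma lip (f : Fin 24 → ℕ) (hf : ∀ i j : Fin 24, i ≠ j → cN i j = 1 → f j ≤ f i + 1)
    {i j : Fin 24} (p : ex.graph.Walk i j) : f j ≤ f i + p.length := by
  induction p with
  | nil => simp
  | cons h p ih =>
    have h1 := (ex_adj _ _).mp h
    have h2 := hf _ _ h1.1 h1.2
    rw [SimpleGraph.Walk.length_cons]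
    omega

lemma adj_of {i j : Fin 24} (h : i ≠ j ∧ cN i j = 1) : ex.graph.Adj i j := (ex_adj i j).mpr h

lemma ex_dist1 : ex.graph.edist 3 4 = 3 := by
  apply le_antisymm
  · exact SimpleGraph.Walk.edist_le (SimpleGraph.Walk.cons (adj_of (by decide +kernel) : ex.graph.Adj 3 17)
      (.cons (adj_of (by decide +kernel) : ex.graph.Adj 17 16)
        (.cons (adj_of (by decide +kernel) : ex.graph.Adj 16 4) .nil)))
  · refine le_iInf fun p => ?_
    have h := lip (fun i => dep3.getD i.val 0) dep3_tab p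
    have h1 : dep3.getD (4 : Fin 24).val 0 = 3 := rfl
    have h2 : dep3.getD (3 : Fin 24).val 0 = 0 := rfl
    beta_reduce at h
    rw [h1, h2, zero_add] at h
    exact_mod_cast h

lemma ex_dist2 : ex.graph.edist 12 14 = 4 := by
  apply le_antisymm
  · exact SimpleGraph.Walk.edist_le (SimpleGraph.Walk.cons (adj_of (by decide +kernel) : ex.graph.Adj 12 5)
      (.cons (adj_of (by decide +kernel) : ex.graph.Adj 5 0)
        (.cons (adj_of (by decide +kernel) : ex.graph.Adj 0 22)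
          (.cons (adj_of (by decide +kernel) : ex.graph.Adj 22 14) .nil))))
  · refine le_iInf fun p => ?_
    have h := lip (fun i => dep12.getD i.val 0) dep12_tab p
    have h1 : dep12.getD (14 : Fin 24).val 0 = 4 := rfl
    have h2 : dep12.getD (12 : Fin 24).val 0 = 0 := rfl
    beta_reduce at h
    rw [h1, h2, zero_add] at h
    exact_mod_cast h

lemma ex_info (i j : Fin 24) : ex.info i j = (LZ i j : ℝ) / 2 := by
  have h1 : (ex.inc * ex.incᵀ) i j = (cN i j : ℝ) := by
    rw [← ex_conc, Matrix.mul_apply]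
    unfold Design.conc
    push_cast
    rfl
  unfold Design.info
  rw [Matrix.sub_apply, Matrix.smul_apply, h1, Matrix.diagonal_apply, ex_rep]
  unfold LZ cN
  by_cases h : i = j
  · rw [if_pos h, if_pos h, if_pos h]
    norm_num
  · rw [if_neg h, if_neg h, if_neg h]
    split_ifs <;> norm_num

lemma ex_M (i j : Fin 24) : ex.M i j = (LZ i j : ℝ) / 2 + 1 / 24 := by
  unfold Design.M
  rw [Matrix.add_apply, ex_info, avg_apply]
  norm_num

lemma ex_psd (x : Fin 24 → ℝ) : 0 ≤ ∑ i, ∑ j, (24 * (LZ i j : ℝ) - (if i = j then 24 else 0) + 1) *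
    (x i * x j) := by
  have h1 : ∀ i j : Fin 24, (70631611050 : ℝ) * (24 * (LZ i j : ℝ) - (if i = j then 24 else 0) + 1) =
      ∑ k : Fin 19, ((cc.getD k.val 0 : ℤ) : ℝ) * ((((ll.getD k.val []).getD i.val 0 : ℤ) : ℝ) *
        (((ll.getD k.val []).getD j.val 0 : ℤ) : ℝ)) := by
    intro i j
    have := cert_tab i j
    exact_mod_cast this
  have h2 : (70631611050 : ℝ) * ∑ i, ∑ j, (24 * (LZ i j : ℝ) - (if i = j then 24 else 0) + 1) *
      (x i * x j) = ∑ k : Fin 19, ((cc.getD k.val 0 : ℤ) : ℝ) *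
        (∑ i : Fin 24, (((ll.getD k.val []).getD i.val 0 : ℤ) : ℝ) * x i) ^ 2 := by
    have h3 : ∀ k : Fin 19, ((cc.getD k.val 0 : ℤ) : ℝ) *
        (∑ i : Fin 24, (((ll.getD k.val []).getD i.val 0 : ℤ) : ℝ) * x i) ^ 2 =
        ∑ i : Fin 24, ∑ j : Fin 24, ((cc.getD k.val 0 : ℤ) : ℝ) *
          ((((ll.getD k.val []).getD i.val 0 : ℤ) : ℝ) *
          (((ll.getD k.val []).getD j.val 0 : ℤ) : ℝ)) * (x i * x j) := by
      intro k
      rw [sq, Finset.sum_mul_sum, Finset.mul_sum]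
      refine Finset.sum_congr rfl fun i _ => ?_
      rw [Finset.mul_sum]
      exact Finset.sum_congr rfl fun j _ => by ring
    have h5 : ∀ F : Fin 19 → Fin 24 → Fin 24 → ℝ,
        ∑ k, ∑ i, ∑ j, F k i j = ∑ i, ∑ j, ∑ k, F k i j := by
      intro F
      rw [Finset.sum_comm]
      exact Finset.sum_congr rfl fun i _ => Finset.sum_comm
    rw [Finset.sum_congr rfl fun k _ => h3 k, h5, Finset.mul_sum]
    refine Finset.sum_congr rfl fun i _ => ?_
    rw [Finset.mul_sum]
    refine Finset.sum_congr rfl fun j _ => ?_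
    rw [← Finset.sum_mul, ← h1]
    ring
  have h4 : 0 ≤ ∑ k : Fin 19, ((cc.getD k.val 0 : ℤ) : ℝ) *
        (∑ i : Fin 24, (((ll.getD k.val []).getD i.val 0 : ℤ) : ℝ) * x i) ^ 2 :=
    Finset.sum_nonneg fun k _ => mul_nonneg (by exact_mod_cast cc_nonneg k) (sq_nonneg _)
  rw [← h2] at h4
  exact nonneg_of_mul_nonneg_right h4 (by norm_num)

lemma ex_form (x : Fin 24 → ℝ) : 1 / 2 * (x ⬝ᵥ x) ≤ x ⬝ᵥ (ex.M *ᵥ x) := by
  have h0 := ex_psd x
  have h1 : x ⬝ᵥ (ex.M *ᵥ x) = ∑ i, ∑ j, ((LZ i j : ℝ) / 2 + 1 / 24) * (x i * x j) := by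
    simp only [dotProduct, Matrix.mulVec, Finset.mul_sum, ex_M]
    exact Finset.sum_congr rfl fun i _ => Finset.sum_congr rfl fun j _ => by ring
  have h2 : x ⬝ᵥ x = ∑ i, ∑ j, (if i = j then 1 else 0) * (x i * x j) := by
    simp only [dotProduct]
    refine Finset.sum_congr rfl fun i _ => ?_
    simp only [ite_mul, one_mul, zero_mul]
    rw [Finset.sum_ite_eq Finset.univ i, if_pos (Finset.mem_univ _)]
  have h3 : (∑ i, x i) ^ 2 = ∑ i, ∑ j, x i * x j := by
    rw [sq, Finset.sum_mul_sum]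
  have h4 : ∑ i, ∑ j, (24 * (LZ i j : ℝ) - (if i = j then 24 else 0) + 1) * (x i * x j) =
      48 * (∑ i, ∑ j, ((LZ i j : ℝ) / 2 + 1 / 24) * (x i * x j)) -
      24 * (∑ i, ∑ j, (if i = j then 1 else 0) * (x i * x j)) - ∑ i, ∑ j, x i * x j := by
    simp only [Finset.mul_sum, ← Finset.sum_sub_distrib]
    refine Finset.sum_congr rfl fun i _ => Finset.sum_congr rfl fun j _ => ?_
    split_ifs <;> ring
  have h5 := sq_nonneg (∑ i, x i)
  rw [h4, ← h1, ← h2, ← h3] at h0
  linarith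

lemma ex_opt : ex.EOptimal := by
  refine ⟨ex_connected, ex_regular.2.1, ?_⟩
  intro D' _ h
  exact (eVal_le_half D' h).trans (ex.le_eVal (by norm_num) (by norm_num) ex_form)

lemma ex_var {i j : Fin 24} {Z : List ℤ} {den : ℤ} (hden : den ≠ 0)
    (h : ∀ l : Fin 24, ∑ m : Fin 24, LZ l m * Z.getD m.val 0 =
      den * ((if l = i then 1 else 0) - (if l = j then 1 else 0)))
    (hs : ∑ m : Fin 24, Z.getD m.val 0 = 0) {G : Matrix (Fin 24) (Fin 24) ℝ} (hG : ex.IsGInv G) :
    pairVar G i j = 2 * ((Z.getD i.val 0 : ℤ) - (Z.getD j.val 0 : ℤ)) / den := by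
  rw [ex.pairVar_eq (by norm_num) (by norm_num) ex_connected hG]
  have hd : (den : ℝ) ≠ 0 := by exact_mod_cast hden
  set x : Fin 24 → ℝ := Pi.single i 1 - Pi.single j 1 with hx
  set z : Fin 24 → ℝ := fun m => 2 * ((Z.getD m.val 0 : ℤ) : ℝ) / den with hz
  have hM : ex.M *ᵥ z = x := by
    funext l
    have e1 : (ex.M *ᵥ z) l = (∑ m : Fin 24, (LZ l m : ℝ) * ((Z.getD m.val 0 : ℤ) : ℝ)) / den +
        (∑ m : Fin 24, ((Z.getD m.val 0 : ℤ) : ℝ)) / (12 * den) := by
      simp only [Matrix.mulVec, dotProduct, ex_M, hz]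
      rw [Finset.sum_div, Finset.sum_div, ← Finset.sum_add_distrib]
      refine Finset.sum_congr rfl fun m _ => ?_
      field_simp
      ring
    have e2 : ∑ m : Fin 24, (LZ l m : ℝ) * ((Z.getD m.val 0 : ℤ) : ℝ) =
        den * ((if l = i then 1 else 0) - (if l = j then 1 else 0)) := by
      have := h l
      exact_mod_cast this
    have e3 : ∑ m : Fin 24, ((Z.getD m.val 0 : ℤ) : ℝ) = 0 := by exact_mod_cast hs
    rw [e1, e2, e3, hx]
    simp only [Pi.sub_apply, Pi.single_apply]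
    field_simp
    ring
  have hdet : IsUnit ex.M.det :=
    (ex.M_posDef (by norm_num) (by norm_num) ex_connected).det_pos.ne'.isUnit
  have hinv : ex.M⁻¹ *ᵥ x = z := by
    rw [← hM, Matrix.mulVec_mulVec, Matrix.nonsing_inv_mul _ hdet, Matrix.one_mulVec]
  unfold pairVar
  rw [← hx, hinv, hx, sub_dotProduct, single_one_dotProduct, single_one_dotProduct]
  simp only [hz]
  ring

lemma z1_sum : ∑ m : Fin 24, z1.getD m.val 0 = 0 := by decide +kernel

lemma z2_sum : ∑ m : Fin 24, z2.getD m.val 0 = 0 := by decide +kernel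

lemma ex_var1 {G : Matrix (Fin 24) (Fin 24) ℝ} (hG : ex.IsGInv G) : pairVar G 3 4 = 844 / 405 := by
  rw [ex_var (by norm_num) z1_tab z1_sum hG]
  have h1 : z1.getD (3 : Fin 24).val 0 = 211 := rfl
  have h2 : z1.getD (4 : Fin 24).val 0 = -211 := rfl
  rw [h1, h2]
  norm_num

lemma ex_var2 {G : Matrix (Fin 24) (Fin 24) ℝ} (hG : ex.IsGInv G) :
    pairVar G 12 14 = 5021 / 2430 := by
  rw [ex_var (by norm_num) z2_tab z2_sum hG]
  have h1 : z2.getD (12 : Fin 24).val 0 = 5021 := rfl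
  have h2 : z2.getD (14 : Fin 24).val 0 = -5021 := rfl
  rw [h1, h2]
  norm_num

/-- the counterexample -/
theorem main : ∃ (D : Design 24 36 2) (i j m n : Fin 24), D.IsRegularGraph ∧ D.EOptimal ∧
    i ≠ j ∧ m ≠ n ∧ D.graph.edist i j = 3 ∧ D.graph.edist m n = 4 ∧
    (∃ G, D.IsGInv G) ∧
    ∀ G, D.IsGInv G → pairVar G i j = 844 / 405 ∧ pairVar G m n = 5021 / 2430 :=
  ⟨ex, 3, 4, 12, 14, ex_regular, ex_opt, by decide, by decide, ex_dist1, ex_dist2,
    ⟨_, ex.isGInv_Minv (by norm_num) (by norm_num) ex_connected⟩,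
    fun _ hG => ⟨ex_var1 hG, ex_var2 hG⟩⟩

end Pool.Agent.Lib.MP_c32163_co.DV
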