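import Pool.Agent.Lib.MP_c32163_co.DV.ExTab

/-!
The example: verification of the potentials and of the certificate of positivity.
-/

open Matrix Finset

namespace Pool.Agent.Lib.MP_c32163_co.DV

/-- the Laplacian matrix -/
def LZ (i j : Fin 24) : ℤ := if i = j then 3 else if adjB i j then -1 else 0

lemma z1_tab : ∀ i : Fin 24, ∑ j : Fin 24, LZ i j * z1.getD j.val 0 =
    405 * ((if i = 3 then 1 else 0) - (if i = 4 then 1 else 0)) := by
  decide +kernel

lemma z2_tab : ∀ i : Fin 24, ∑ j : Fin 24, LZ i j * z2.getD j.val 0 =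
    9720 * ((if i = 12 then 1 else 0) - (if i = 14 then 1 else 0)) := by
  decide +kernel

lemma cert_tab : ∀ i j : Fin 24, 70631611050 * (24 * LZ i j - (if i = j then 24 else 0) + 1) =
    ∑ k : Fin 19, cc.getD k.val 0 * ((ll.getD k.val []).getD i.val 0 *
      (ll.getD k.val []).getD j.val 0) := by
  decide +kernel

lemma cc_nonneg : ∀ k : Fin 19, 0 ≤ cc.getD k.val 0 := by
  decide +kernel

lemma dep0_tab : ∀ i : Fin 24, (dep0.getD i.val 0 = 0 → i = 0) ∧ (dep0.getD i.val 0 ≠ 0 →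
    ∃ j : Fin 24, cN i j = 1 ∧ i ≠ j ∧ dep0.getD j.val 0 + 1 = dep0.getD i.val 0) := by
  decide +kernel

lemma dep3_tab : ∀ i j : Fin 24, i ≠ j → cN i j = 1 →
    dep3.getD j.val 0 ≤ dep3.getD i.val 0 + 1 := by
  decide +kernel

lemma dep12_tab : ∀ i j : Fin 24, i ≠ j → cN i j = 1 →
    dep12.getD j.val 0 ≤ dep12.getD i.val 0 + 1 := by
  decide +kernel

lemma cN_symm : ∀ i j : Fin 24, cN i j = cN j i := by
  decide +kernel

end Pool.Agent.Lib.MP_c32163_co.DV
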