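import Pool.Agent.Lib.MP_c32163_co.DV.Gen

/-!
The example: a cubic graph on 24 vertices (tables and their verification).
-/

open Matrix Finset

namespace Pool.Agent.Lib.MP_c32163_co.DV

/-- first ends of the edges -/
def eu : Fin 36 → Fin 24 :=
  ![0, 0, 0, 1, 1, 1, 2, 2, 2, 3, 3, 4, 4, 5, 5, 6, 6, 6, 7, 7, 7, 8, 8, 8, 9, 9, 10, 10, 11,
    11, 12, 13, 14, 15, 16, 20]

/-- second ends of the edges -/
def ev : Fin 36 → Fin 24 :=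
  ![5, 22, 23, 4, 19, 21, 3, 18, 20, 15, 17, 14, 16, 12, 13, 11, 21, 23, 10, 20, 22, 9, 15, 19,
    14, 18, 12, 17, 13, 16, 19, 18, 22, 23, 17, 21]

/-- neighbourhoods as bit masks -/
def rows : List ℕ :=
  [12582944, 2621456, 1310728, 163844, 81922, 12289, 10487808, 5243904, 557568, 278784, 135296,
    73792, 525344, 264224, 4194832, 8388872, 133136, 66568, 8708, 4354, 2097284, 1048642, 16513,
    32833]

/-- depth from 0 -/
def dep0 : List ℕ :=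
  [0, 4, 4, 3, 3, 1, 2, 2, 3, 3, 3, 3, 2, 2, 2, 2, 4, 4, 3, 3, 3, 3, 1, 1]

/-- parents -/
def par0 : List ℕ :=
  [0, 19, 18, 15, 14, 0, 23, 22, 15, 14, 12, 13, 5, 5, 22, 23, 11, 10, 13, 12, 7, 6, 0, 0]

/-- depth from 3 -/
def dep3 : List ℕ :=
  [3, 4, 1, 0, 3, 4, 3, 3, 2, 3, 2, 3, 3, 3, 4, 1, 2, 1, 2, 3, 2, 3, 4, 2]

/-- depth from 12 -/
def dep12 : List ℕ :=
  [2, 2, 4, 3, 3, 1, 4, 2, 2, 3, 1, 3, 0, 2, 4, 3, 3, 2, 3, 1, 3, 3, 3, 3]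

/-- potentials -/
def z1 : List ℤ :=
  [0, -86, 86, 211, -211, 0, -6, 6, 15, -15, 21, -21, -1, 1, -84, 84, -58, 58, 24, -24, 23, -23,
    -26, 26]

/-- potentials -/
def z2 : List ℤ :=
  [92, -92, -140, 140, -1852, 1852, 0, 72, -72, -1872, 1872, 0, 5021, 443, -5021, 37, -443, 523,
    -523, 1619, -37, -43, -1619, 43]

/-- coefficients of the squares -/
def cc : List ℤ :=
  [1441461450, 345950748, 332384052, 319600050, 98785470, 275188095, 85510425, 36835260,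
    197570940, 191673300, 38334660, 197570940, 905533475, 2077400325, 2077400325, 692466775,
    127840020, 724426780, 329614184900]

/-- linear forms -/
def ll : List (List ℤ) :=
  [[1, 1, 1, -23, 1, 1, 1, 1, -23, 1, 1, 1, 1, 1, 1, 49, 1, 1, 1, 1, 1, 1, 1, -23],
    [-47, 2, 2, 3, 2, 2, 2, -47, 3, 2, 2, 2, 2, 2, -47, 0, 2, 2, 2, 2, 2, 2, 100, 3],
    [3, -48, 2, 3, 102, 2, 2, 3, 3, 2, 2, 2, 2, 2, -47, 0, -48, 2, 2, 2, 2, 2, 0, 3],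
    [3, 3, 104, -48, 0, 2, 2, 3, 3, 2, 2, 2, 2, 2, 4, 0, 3, 2, -49, 2, -49, 2, 0, 3],
    [9, 9, 0, -40, 0, 6, 6, 9, 165, -98, 6, 6, 6, 6, 12, 0, 9, 6, 9, -98, 9, 6, 0, -43],
    [3, -52, 0, 5, 0, 2, -53, 3, 0, 4, 2, 2, 2, 2, 4, 0, 3, 2, 3, 4, -52, 112, 0, 4],
    [177, 12, 0, 15, 0, -106, 9, -47, 0, 12, 6, 6, 6, 6, -44, 0, 9, 6, 9, 12, 12, 0, 0, -100],
    [0, 24, 0, 30, 0, -35, 18, 260, 0, 24, -165, 12, 12, 12, -88, 0, 18, 12, 18, 24, -153, 0, 0,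
    -23],
    [0, 4, 0, 5, 0, -60, 3, 0, 0, 4, 5, -63, 2, 132, 7, 0, 3, 2, -62, 4, 7, 0, 0, 7],
    [0, 4, 0, -61, 0, 6, 3, 0, 0, 4, -61, 3, 2, 0, 7, 0, -63, 134, 4, 4, 7, 0, 0, 7],
    [0, -78, 0, -50, 0, 17, -92, 0, 0, 56, -117, 42, 28, 0, -36, 0, 56, 0, -78, 56, 165, 0, 0, 31],
    [0, -3, 0, -40, 0, 7, -12, 0, 0, 36, 78, 27, -92, 0, -31, 0, -19, 0, -3, 36, 0, 0, 0, 16],
    [0, 9, 0, 3, 0, 5, 10, 0, 0, 48, 0, -3, 16, 0, -24, 0, 5, 0, -30, -30, 0, 0, 0, -9],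
    [0, 3, 0, 17, 0, 15, -2, 0, 0, 0, 0, 15, -16, 0, 8, 0, -17, 0, -18, 6, 0, 0, 0, -11],
    [0, 12, 0, 0, 0, -8, -25, 0, 0, 0, 0, 9, 4, 0, -2, 0, 0, 0, -4, -10, 0, 0, 0, 24],
    [0, 0, 0, 0, 0, -28, -23, 0, 0, 0, 0, 51, 28, 0, 6, 0, -28, 0, 0, -6, 0, 0, 0, 0],
    [0, -51, 0, 0, 0, -65, 65, 0, 0, 0, 0, 0, 48, 0, 37, 0, -31, 0, -17, 14, 0, 0, 0, 0],
    [0, 36, 0, 0, 0, 0, 0, 0, 0, 0, 0, 0, 12, 0, -7, 0, -24, 0, 12, -29, 0, 0, 0, 0],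
    [0, 0, 0, 0, 0, 0, 0, 0, 0, 0, 0, 0, 0, 0, -1, 0, 0, 0, 0, 1, 0, 0, 0, 0]]

/-- the example -/
def ex : Design 24 36 2 where
  block B := {eu B, ev B}
  card_block _ := rfl

/-- adjacency, computed -/
def adjB (i j : Fin 24) : Bool := (rows.getD i.val 0).testBit j.val

/-- the concurrences, computed -/
def cN (i j : Fin 24) : ℕ := if i = j then 3 else if adjB i j then 1 else 0

lemma ex_mult (i : Fin 24) (B : Fin 36) :
    ex.mult i B = (if i = eu B then 1 else 0) + (if i = ev B then 1 else 0) := by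
  unfold Design.mult ex
  show Multiset.count i (eu B ::ₘ {ev B}) = _
  rw [Multiset.count_cons, Multiset.count_singleton]
  omega

lemma mult_le : ∀ (i : Fin 24) (B : Fin 36), (if i = eu B then 1 else 0) +
    (if i = ev B then 1 else 0) ≤ 1 := by
  decide +kernel

lemma rep_tab : ∀ i : Fin 24, ∑ B : Fin 36, ((if i = eu B then 1 else 0) +
    (if i = ev B then 1 else 0)) = 3 := by
  decide +kernel

lemma conc_tab : ∀ i j : Fin 24, ∑ B : Fin 36, ((if i = eu B then 1 else 0) +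
    (if i = ev B then 1 else 0)) * ((if j = eu B then 1 else 0) +
    (if j = ev B then 1 else 0)) = cN i j := by
  decide +kernel

end Pool.Agent.Lib.MP_c32163_co.DV
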