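import Pool.Agent.Lib.MP_c32163_co.DV.Defs

/-!
Generic facts about the information matrix (from the hand-in ConcurrenceVariance).
-/

open Matrix Finset

namespace Pool.Agent.Lib.MP_c32163_co.DV

section generic
variable {v : ℕ}


/-- the averaging matrix -/
noncomputable def avg (v : ℕ) : Matrix (Fin v) (Fin v) ℝ := Matrix.of fun _ _ => (v : ℝ)⁻¹

lemma avg_apply (i j : Fin v) : avg v i j = (v : ℝ)⁻¹ := rfl

lemma avg_eq : avg v = replicateCol Unit (fun _ : Fin v => (1:ℝ)) * replicateRow Unit (fun _ : Fin v => (v:ℝ)⁻¹) := by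
  ext i j
  simp [avg, Matrix.mul_apply]

lemma mul_avg {C : Matrix (Fin v) (Fin v) ℝ} (h : C *ᵥ (fun _ => 1) = 0) : C * avg v = 0 := by
  ext i j
  have := congrFun h i
  simp only [Matrix.mulVec, dotProduct, mul_one, Pi.zero_apply] at this
  simp only [Matrix.mul_apply, avg_apply, ← Finset.sum_mul, this, zero_mul, Matrix.zero_apply]

lemma det_one_sub_smul_avg (hv : 0 < v) (s : ℝ) : det (1 - s • avg v) = 1 - s := by
  have h1 : (1 : Matrix (Fin v) (Fin v) ℝ) - s • avg v = 1 + replicateCol Unit (fun _ : Fin v => (1:ℝ)) * replicateRow Unit (fun _ : Fin v => -s * (v:ℝ)⁻¹) := by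
    ext i j
    simp [avg, Matrix.mul_apply]
    ring
  rw [h1, Matrix.det_one_add_replicateCol_mul_replicateRow]
  have : (v:ℝ) ≠ 0 := by positivity
  simp [dotProduct]
  field_simp
  ring

open Polynomial in
lemma eval_charpoly' (C : Matrix (Fin v) (Fin v) ℝ) (t : ℝ) :
    C.charpoly.eval t = det (t • (1 : Matrix (Fin v) (Fin v) ℝ) - C) := by
  rw [Matrix.eval_charpoly]
  congr 1
  rw [Matrix.smul_one_eq_diagonal]
  rfl

open Polynomial in
lemma charpoly_relation (hv : 0 < v) {C : Matrix (Fin v) (Fin v) ℝ} (h : C *ᵥ (fun _ => 1) = 0) :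
    C.charpoly * (X - Polynomial.C 1) = X * (C + avg v).charpoly := by
  have key : X * (C.charpoly * (X - Polynomial.C 1)) = X * (X * (C + avg v).charpoly) := by
    apply Polynomial.funext
    intro t
    simp only [Polynomial.eval_mul, Polynomial.eval_X, Polynomial.eval_sub, Polynomial.eval_C,
      eval_charpoly']
    by_cases ht : t = 0
    · simp [ht]
    congr 1
    have h2 : (t • (1 : Matrix (Fin v) (Fin v) ℝ) - C) * (1 - t⁻¹ • avg v) =
        t • (1 : Matrix (Fin v) (Fin v) ℝ) - (C + avg v) := by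
      rw [Matrix.mul_sub, Matrix.mul_one, Matrix.sub_mul, Matrix.mul_smul, Matrix.mul_smul, mul_avg h]
      simp only [smul_zero, sub_zero, Matrix.smul_mul, Matrix.one_mul, smul_smul]
      rw [inv_mul_cancel₀ ht, one_smul]
      abel
    rw [← h2, Matrix.det_mul, det_one_sub_smul_avg hv]
    field_simp
  exact mul_left_cancel₀ X_ne_zero key

open Polynomial in
lemma roots_relation (hv : 0 < v) {C : Matrix (Fin v) (Fin v) ℝ} (h : C *ᵥ (fun _ => 1) = 0) :
    (C + avg v).charpoly.roots = 1 ::ₘ (C.charpoly.roots.erase 0) := by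
  have h1 := charpoly_relation hv h
  have hC : C.charpoly ≠ 0 := (Matrix.charpoly_monic C).ne_zero
  have hM : (C + avg v).charpoly ≠ 0 := (Matrix.charpoly_monic _).ne_zero
  have hX1 : (X - Polynomial.C (1:ℝ)) ≠ 0 := X_sub_C_ne_zero 1
  have h2 := congrArg Polynomial.roots h1
  rw [Polynomial.roots_mul (mul_ne_zero hC hX1), Polynomial.roots_mul (mul_ne_zero X_ne_zero hM),
    Polynomial.roots_X_sub_C, Polynomial.roots_X] at h2
  have h3 : (0:ℝ) ∈ C.charpoly.roots := by
    have : (0:ℝ) ∈ C.charpoly.roots + {1} := by rw [h2]; simp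
    rw [Multiset.mem_add] at this
    rcases this with h | h
    · exact h
    · simp at h
  have h4 : (C + avg v).charpoly.roots = (C.charpoly.roots + {1}).erase 0 := by
    rw [h2]; simp
  rw [h4, Multiset.erase_add_left_pos _ h3, add_comm, Multiset.singleton_add]



end generic

namespace Design

variable {v b k : ℕ} (D : Design v b k)

lemma sum_mult (B : Fin b) : ∑ i, D.mult i B = k := by
  unfold mult
  exact (Multiset.sum_count_eq_card (fun a _ => Finset.mem_univ a)).trans (D.card_block B)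

lemma sum_multR (B : Fin b) : ∑ i, (D.mult i B : ℝ) = k := by
  exact_mod_cast D.sum_mult B

lemma repR (i : Fin v) : (D.rep i : ℝ) = ∑ B, (D.mult i B : ℝ) := by
  unfold rep; push_cast; rfl

lemma info_mulVec (x : Fin v → ℝ) (i : Fin v) :
    (D.info *ᵥ x) i = D.rep i * x i - (k:ℝ)⁻¹ * ∑ B, (D.mult i B : ℝ) * ∑ j, (D.mult j B : ℝ) * x j := by
  unfold info
  rw [Matrix.sub_mulVec, Pi.sub_apply, Matrix.mulVec_diagonal, Matrix.smul_mulVec, Pi.smul_apply,
    ← Matrix.mulVec_mulVec]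
  simp [Matrix.mulVec, dotProduct, inc]

lemma info_one (hk : 0 < k) : D.info *ᵥ (fun _ => 1) = 0 := by
  funext i
  rw [info_mulVec]
  have hk' : (k:ℝ) ≠ 0 := by positivity
  simp only [mul_one, sum_multR, ← Finset.sum_mul, ← repR, Pi.zero_apply]
  field_simp
  ring

lemma info_symm : D.infoᵀ = D.info := by
  unfold info
  rw [Matrix.transpose_sub, Matrix.diagonal_transpose, Matrix.transpose_smul, Matrix.transpose_mul,
    Matrix.transpose_transpose]

lemma form_eq (x : Fin v → ℝ) : x ⬝ᵥ (D.info *ᵥ x) =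
    ∑ i, (D.rep i : ℝ) * x i ^ 2 - (k:ℝ)⁻¹ * ∑ B, (∑ i, (D.mult i B : ℝ) * x i) ^ 2 := by
  simp only [dotProduct, info_mulVec, mul_sub, Finset.sum_sub_distrib]
  congr 1
  · exact Finset.sum_congr rfl fun i _ => by ring
  · rw [Finset.mul_sum]
    have : ∀ i, x i * ((k:ℝ)⁻¹ * ∑ B, (D.mult i B : ℝ) * ∑ j, (D.mult j B : ℝ) * x j) =
        ∑ B, (k:ℝ)⁻¹ * (((D.mult i B : ℝ) * x i) * ∑ j, (D.mult j B : ℝ) * x j) := by
      intro i
      rw [Finset.mul_sum, Finset.mul_sum]
      exact Finset.sum_congr rfl fun B _ => by ring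
    rw [Finset.sum_congr rfl fun i _ => this i, Finset.sum_comm]
    refine Finset.sum_congr rfl fun B _ => ?_
    rw [← Finset.mul_sum, ← Finset.sum_mul, sq]

lemma form_eq' (hk : 0 < k) (x : Fin v → ℝ) : x ⬝ᵥ (D.info *ᵥ x) =
    (2 * (k:ℝ))⁻¹ * ∑ B, ∑ i, ∑ j, (D.mult i B : ℝ) * (D.mult j B : ℝ) * (x i - x j) ^ 2 := by
  rw [form_eq]
  have hk' : (k:ℝ) ≠ 0 := by positivity
  have h1 : ∑ i, (D.rep i : ℝ) * x i ^ 2 = ∑ B, ∑ i, (D.mult i B : ℝ) * x i ^ 2 := by
    rw [Finset.sum_comm]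
    exact Finset.sum_congr rfl fun i _ => by rw [repR, Finset.sum_mul]
  rw [h1, Finset.mul_sum, Finset.mul_sum, ← Finset.sum_sub_distrib]
  refine Finset.sum_congr rfl fun B _ => ?_
  have e : ∑ i, ∑ j, (D.mult i B : ℝ) * (D.mult j B : ℝ) * (x i - x j) ^ 2 =
      2 * (k * ∑ i, (D.mult i B : ℝ) * x i ^ 2) - 2 * (∑ i, (D.mult i B : ℝ) * x i) ^ 2 := by
    have e1 : ∑ i, ∑ j, (D.mult i B : ℝ) * (D.mult j B : ℝ) * (x i - x j) ^ 2 =
        ∑ i, ∑ j, ((D.mult i B : ℝ) * x i ^ 2 * (D.mult j B : ℝ) + (D.mult i B : ℝ) * ((D.mult j B : ℝ) * x j ^ 2)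
          - 2 * (((D.mult i B : ℝ) * x i) * ((D.mult j B : ℝ) * x j))) :=
      Finset.sum_congr rfl fun i _ => Finset.sum_congr rfl fun j _ => by ring
    rw [e1]
    simp only [Finset.sum_sub_distrib, Finset.sum_add_distrib, ← Finset.mul_sum, ← Finset.sum_mul, sum_multR]
    ring
  rw [e]
  field_simp

lemma form_nonneg (hk : 0 < k) (x : Fin v → ℝ) : 0 ≤ x ⬝ᵥ (D.info *ᵥ x) := by
  rw [form_eq' D hk]
  refine mul_nonneg (by positivity) ?_
  exact Finset.sum_nonneg fun B _ => Finset.sum_nonneg fun i _ => Finset.sum_nonneg fun j _ => by positivity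

lemma const_of_form_zero (hk : 0 < k) (hc : D.Connected) (x : Fin v → ℝ)
    (h : x ⬝ᵥ (D.info *ᵥ x) = 0) (i j : Fin v) : x i = x j := by
  rw [form_eq' D hk] at h
  have hk' : (2 * (k:ℝ))⁻¹ ≠ 0 := by positivity
  have h0 := (mul_eq_zero.mp h).resolve_left hk'
  have step : ∀ i j, 0 < D.conc i j → x i = x j := by
    intro i j hij
    obtain ⟨B, -, hB⟩ := Finset.exists_ne_zero_of_sum_ne_zero (s := Finset.univ)
      (f := fun B => D.mult i B * D.mult j B) hij.ne'
    rw [Finset.sum_eq_zero_iff_of_nonneg (fun B _ => Finset.sum_nonneg fun i _ =>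
      Finset.sum_nonneg fun j _ => by positivity)] at h0
    have h1 := h0 B (Finset.mem_univ _)
    rw [Finset.sum_eq_zero_iff_of_nonneg (fun i _ => Finset.sum_nonneg fun j _ => by positivity)] at h1
    have h2 := h1 i (Finset.mem_univ _)
    rw [Finset.sum_eq_zero_iff_of_nonneg (fun j _ => by positivity)] at h2
    have h3 := h2 j (Finset.mem_univ _)
    have h4 : ((D.mult i B : ℝ) * (D.mult j B : ℝ)) ≠ 0 := by exact_mod_cast hB
    have h5 := (mul_eq_zero.mp h3).resolve_left h4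
    have h6 := pow_eq_zero_iff (two_ne_zero) |>.mp h5
    linarith
  have conn := hc.preconnected i j
  obtain ⟨w⟩ := conn
  induction w with
  | nil => rfl
  | cons hadj _ ih =>
    rw [SimpleGraph.fromRel_adj] at hadj
    obtain ⟨-, h | h⟩ := hadj
    · rw [step _ _ h]; exact ih
    · rw [← step _ _ h]; exact ih


noncomputable def M : Matrix (Fin v) (Fin v) ℝ := D.info + avg v

lemma form_avg (x : Fin v → ℝ) : x ⬝ᵥ (avg v *ᵥ x) = (v:ℝ)⁻¹ * (∑ i, x i) ^ 2 := by
  have : avg v *ᵥ x = fun _ => (v:ℝ)⁻¹ * ∑ i, x i := by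
    funext i
    simp [Matrix.mulVec, dotProduct, avg, Finset.mul_sum]
  rw [this]
  simp only [dotProduct, ← Finset.sum_mul]
  ring

lemma form_M (x : Fin v → ℝ) : x ⬝ᵥ (D.M *ᵥ x) = x ⬝ᵥ (D.info *ᵥ x) + (v:ℝ)⁻¹ * (∑ i, x i) ^ 2 := by
  unfold M
  rw [Matrix.add_mulVec, dotProduct_add, form_avg]

lemma M_symm : D.Mᵀ = D.M := by
  unfold M
  rw [Matrix.transpose_add, info_symm]
  congr 1

lemma M_herm : D.M.IsHermitian := by
  rw [Matrix.IsHermitian, Matrix.conjTranspose_eq_transpose_of_trivial]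
  exact D.M_symm

lemma M_posDef (hv : 0 < v) (hk : 0 < k) (hc : D.Connected) : D.M.PosDef := by
  refine Matrix.PosDef.of_dotProduct_mulVec_pos D.M_herm ?_
  intro x hx
  simp only [star_trivial]
  rw [form_M]
  have h1 := D.form_nonneg hk x
  have h2 : 0 ≤ (v:ℝ)⁻¹ * (∑ i, x i) ^ 2 := by positivity
  by_contra hcon
  push Not at hcon
  have h3 : x ⬝ᵥ (D.info *ᵥ x) = 0 := by linarith
  have h4 : (v:ℝ)⁻¹ * (∑ i, x i) ^ 2 = 0 := by linarith
  have hc' := D.const_of_form_zero hk hc x h3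
  have hv' : (v:ℝ) ≠ 0 := by positivity
  have h5 : ∑ i, x i = 0 := by
    have := (mul_eq_zero.mp h4).resolve_left (inv_ne_zero hv')
    exact pow_eq_zero_iff (two_ne_zero) |>.mp this
  apply hx
  funext i
  have h6 : ∑ j, x j = v * x i := by
    rw [Finset.sum_congr rfl fun j _ => hc' j i]
    simp
  rw [h5] at h6
  exact (mul_eq_zero.mp h6.symm).resolve_left hv'

lemma roots_M (hv : 0 < v) (hk : 0 < k) : D.M.charpoly.roots = 1 ::ₘ D.eigs :=
  roots_relation hv (D.info_one hk)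

lemma mem_roots_ge {M : Matrix (Fin v) (Fin v) ℝ} (hM : M.IsHermitian) {c : ℝ}
    (h : ∀ x : Fin v → ℝ, c * (x ⬝ᵥ x) ≤ x ⬝ᵥ (M *ᵥ x)) {t : ℝ} (ht : t ∈ M.charpoly.roots) : c ≤ t := by
  rw [Polynomial.mem_roots (Matrix.charpoly_monic M).ne_zero, Polynomial.IsRoot.def, eval_charpoly'] at ht
  obtain ⟨x, hx0, hx⟩ := Matrix.exists_mulVec_eq_zero_iff.mpr ht
  rw [Matrix.sub_mulVec, Matrix.smul_mulVec, Matrix.one_mulVec, sub_eq_zero] at hx
  have h1 := h x
  rw [← hx, dotProduct_smul, smul_eq_mul] at h1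
  have h2 : 0 < x ⬝ᵥ x := by
    have h3 : x ⬝ᵥ x ≠ 0 := by
      intro h4
      exact hx0 (dotProduct_self_eq_zero.mp h4)
    have h5 : 0 ≤ x ⬝ᵥ x := by
      simp only [dotProduct]; exact Finset.sum_nonneg fun i _ => mul_self_nonneg _
    exact lt_of_le_of_ne h5 h3.symm
  exact le_of_mul_le_mul_right h1 h2

lemma exists_eig_le (hv : 0 < v) (hk : 0 < k) {ι : Type} [Fintype ι] (y : ι → Fin v → ℝ)
    (hy : ∀ a, ∑ i, y a i = 0) (a0 : ι) (hne : y a0 ≠ 0) {c : ℝ} (hc1 : c < 1)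
    (hsum : ∑ a, (y a ⬝ᵥ (D.info *ᵥ y a) - c * (y a ⬝ᵥ y a)) ≤ 0) : ∃ t ∈ D.eigs, t ≤ c := by
  by_contra hcon
  push Not at hcon
  -- all eigenvalues of `M` exceed `c`
  have hlt : ∀ t ∈ D.M.charpoly.roots, c < t := by
    intro t ht
    rw [roots_M D hv hk, Multiset.mem_cons] at ht
    rcases ht with rfl | ht
    · exact hc1
    · exact hcon t ht
  have hP : (D.M - c • (1 : Matrix (Fin v) (Fin v) ℝ)).PosDef := by
    have hH : (D.M - c • (1 : Matrix (Fin v) (Fin v) ℝ)).IsHermitian := by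
      rw [Matrix.IsHermitian, Matrix.conjTranspose_eq_transpose_of_trivial, Matrix.transpose_sub,
        Matrix.transpose_smul, Matrix.transpose_one, M_symm]
    rw [hH.posDef_iff_eigenvalues_pos]
    intro i
    have hmem : hH.eigenvalues i ∈ (D.M - c • (1 : Matrix (Fin v) (Fin v) ℝ)).charpoly.roots := by
      rw [hH.roots_charpoly_eq_eigenvalues]
      exact Multiset.mem_map.mpr ⟨i, Finset.mem_univ_val i, rfl⟩
    rw [Polynomial.mem_roots (Matrix.charpoly_monic _).ne_zero, Polynomial.IsRoot.def, eval_charpoly'] at hmem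
    have : hH.eigenvalues i + c ∈ D.M.charpoly.roots := by
      rw [Polynomial.mem_roots (Matrix.charpoly_monic _).ne_zero, Polynomial.IsRoot.def, eval_charpoly']
      rw [← hmem]
      congr 1
      rw [add_smul]
      abel
    have := hlt _ this
    linarith
  have hpos : ∀ x : Fin v → ℝ, 0 ≤ x ⬝ᵥ (D.M *ᵥ x) - c * (x ⬝ᵥ x) := by
    intro x
    have := hP.posSemidef.dotProduct_mulVec_nonneg x
    simp only [star_trivial] at this
    rw [Matrix.sub_mulVec, dotProduct_sub, Matrix.smul_mulVec, Matrix.one_mulVec, dotProduct_smul,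
      smul_eq_mul] at this
    exact this
  have hpos' : 0 < y a0 ⬝ᵥ (D.M *ᵥ y a0) - c * (y a0 ⬝ᵥ y a0) := by
    have := hP.dotProduct_mulVec_pos hne
    simp only [star_trivial] at this
    rw [Matrix.sub_mulVec, dotProduct_sub, Matrix.smul_mulVec, Matrix.one_mulVec, dotProduct_smul,
      smul_eq_mul] at this
    exact this
  have heq : ∀ a, y a ⬝ᵥ (D.info *ᵥ y a) = y a ⬝ᵥ (D.M *ᵥ y a) := by
    intro a
    rw [form_M, hy]
    ring
  have : 0 < ∑ a, (y a ⬝ᵥ (D.info *ᵥ y a) - c * (y a ⬝ᵥ y a)) := by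
    apply Finset.sum_pos'
    · intro a _; rw [heq]; exact hpos _
    · exact ⟨a0, Finset.mem_univ _, by rw [heq]; exact hpos'⟩
  linarith

lemma eVal_le {c : ℝ} (h : ∃ t ∈ D.eigs, t ≤ c) : D.eVal ≤ c := by
  obtain ⟨t, ht, htc⟩ := h
  have hfin : {t | t ∈ D.eigs}.Finite := by
    have := (D.eigs.toFinset).finite_toSet
    refine this.subset ?_
    intro s hs
    simpa using hs
  exact (csInf_le hfin.bddBelow ht).trans htc

lemma le_eVal (hk : 0 < k) (hv : 1 < v) {c : ℝ}
    (h : ∀ x : Fin v → ℝ, c * (x ⬝ᵥ x) ≤ x ⬝ᵥ (D.M *ᵥ x)) : c ≤ D.eVal := by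
  have hv0 : 0 < v := by omega
  have hne : {t | t ∈ D.eigs}.Nonempty := by
    have hcard : Multiset.card D.M.charpoly.roots = v := by
      rw [D.M_herm.roots_charpoly_eq_eigenvalues]; simp
    rw [roots_M D hv0 hk, Multiset.card_cons] at hcard
    have : 0 < Multiset.card D.eigs := by omega
    exact Multiset.card_pos_iff_exists_mem.mp this
  refine le_csInf hne ?_
  intro t ht
  refine mem_roots_ge D.M_herm h ?_
  rw [roots_M D hv0 hk]
  exact Multiset.mem_cons_of_mem ht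

end Design





namespace Design

variable {v b k : ℕ} (D : Design v b k)

lemma avg_mul_M (hv : 0 < v) (hk : 0 < k) : avg v * D.M = avg v := by
  have h1 : D.info * avg v = 0 := mul_avg (D.info_one hk)
  have h2 : avg v * D.info = 0 := by
    have := congrArg Matrix.transpose h1
    rw [Matrix.transpose_mul, info_symm, Matrix.transpose_zero] at this
    exact this
  have hv' : (v:ℝ) ≠ 0 := by positivity
  have h3 : avg v * avg v = avg v := by
    ext i j
    simp [Matrix.mul_apply, avg]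
    field_simp
  unfold M
  rw [Matrix.mul_add, h2, h3, zero_add]

lemma avg_mul_Minv (hv : 0 < v) (hk : 0 < k) (hc : D.Connected) : avg v * D.M⁻¹ = avg v := by
  have hdet : IsUnit D.M.det := (D.M_posDef hv hk hc).det_pos.ne'.isUnit
  calc avg v * D.M⁻¹ = avg v * D.M * D.M⁻¹ := by rw [D.avg_mul_M hv hk]
    _ = avg v := by rw [Matrix.mul_assoc, Matrix.mul_nonsing_inv _ hdet, Matrix.mul_one]

lemma info_mul_Minv (hv : 0 < v) (hk : 0 < k) (hc : D.Connected) : D.info * D.M⁻¹ = 1 - avg v := by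
  have hdet : IsUnit D.M.det := (D.M_posDef hv hk hc).det_pos.ne'.isUnit
  have : D.info = D.M - avg v := by unfold M; rw [add_sub_cancel_right]
  rw [this, Matrix.sub_mul, Matrix.mul_nonsing_inv _ hdet]
  have h2 := D.avg_mul_Minv hv hk hc
  rw [h2]

lemma isGInv_Minv (hv : 0 < v) (hk : 0 < k) (hc : D.Connected) : D.IsGInv D.M⁻¹ := by
  unfold IsGInv
  have h1 : D.info * avg v = 0 := mul_avg (D.info_one hk)
  have h2 : avg v * D.info = 0 := by
    have := congrArg Matrix.transpose h1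
    rw [Matrix.transpose_mul, info_symm, Matrix.transpose_zero] at this
    exact this
  rw [D.info_mul_Minv hv hk hc, Matrix.sub_mul, Matrix.one_mul, h2, sub_zero]

lemma pairVar_eq (hv : 0 < v) (hk : 0 < k) (hc : D.Connected) {G : Matrix (Fin v) (Fin v) ℝ}
    (hG : D.IsGInv G) (i j : Fin v) : pairVar G i j = pairVar D.M⁻¹ i j := by
  set x : Fin v → ℝ := Pi.single i 1 - Pi.single j 1 with hx
  have hsum : avg v *ᵥ x = 0 := by
    funext l
    simp [hx, Matrix.mulVec, dotProduct, avg, mul_sub, Finset.sum_sub_distrib, Pi.single_apply]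
  have hy : D.info *ᵥ (D.M⁻¹ *ᵥ x) = x := by
    rw [Matrix.mulVec_mulVec, D.info_mul_Minv hv hk hc, Matrix.sub_mulVec, Matrix.one_mulVec, hsum, sub_zero]
  set y := D.M⁻¹ *ᵥ x with hydef
  have hsymm : ∀ a c : Fin v → ℝ, (D.info *ᵥ a) ⬝ᵥ c = a ⬝ᵥ (D.info *ᵥ c) := by
    intro a c
    rw [Matrix.dotProduct_mulVec, ← Matrix.mulVec_transpose, info_symm]
  have h1 : pairVar G i j = x ⬝ᵥ (G *ᵥ x) := rfl
  have h2 : pairVar D.M⁻¹ i j = x ⬝ᵥ y := rfl
  rw [h1, h2]
  conv_lhs => rw [← hy]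
  rw [hsymm, Matrix.mulVec_mulVec, Matrix.mulVec_mulVec]
  have : D.info * G * D.info = D.info := hG
  rw [this, hy, dotProduct_comm]

end Design


end Pool.Agent.Lib.MP_c32163_co.DV
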