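import Pool.Agent.Lib.MP_c32163_co.DV.Sound

/-!
Soundness of the search.
-/

open Finset

namespace Pool.Agent.Lib.MP_c32163_co.DV

variable {V : Type*} [Fintype V] [DecidableEq V]

theorem ch_if {β : Type} (c : Bool) (x y : β) : ch c x y = if c = true then x else y := by
  cases c <;> rfl

theorem beq_if (x y : ℕ) : (Nat.beq x y = true) = (x = y) := by
  apply propext
  constructor
  · exact Nat.eq_of_beq_eq_true
  · rintro rfl
    exact Nat.beq_refl _

theorem step_eq (k : ℕ) (sE : ℕ → Bool) (sF : ℕ → ℕ → Bool)
    (ih : ℕ → ℕ → ℕ → ℕ → ℕ → Bool) (a m i us cand : ℕ) :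
    step k sE sF ih a m i us cand =
      if sat (mask a i) = true then
        (if i + 1 = m then sF a m else
          if sat (mask a (i + 1)) = true then ih a m (i + 1) (without us (tp i)) 0 else
            ih a m (i + 1) (without us (tp i)) (without (without us (tp i)) (ball a k (i + 1))))
      else if cand = 0 then
        (if m = 24 then true else ih (addE a i m) (m + 1) i (Nat.lor us (tp m)) 0)
      else
        if (if sE (addE a i (Nat.log2 cand)) = true then true else
          if Nat.xor cand (tp (Nat.log2 cand)) = 0 then
            ih (addE a i (Nat.log2 cand)) m i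
              (if sat (mask (addE a i (Nat.log2 cand)) (Nat.log2 cand)) = true then
                without us (tp (Nat.log2 cand)) else us) 0 else
          if sat (mask (addE a i (Nat.log2 cand)) i) = true then
            ih (addE a i (Nat.log2 cand)) m i
              (if sat (mask (addE a i (Nat.log2 cand)) (Nat.log2 cand)) = true then
                without us (tp (Nat.log2 cand)) else us) 0 else
            ih (addE a i (Nat.log2 cand)) m i
              (if sat (mask (addE a i (Nat.log2 cand)) (Nat.log2 cand)) = true then
                without us (tp (Nat.log2 cand)) else us)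
              (without (Nat.xor cand (tp (Nat.log2 cand))) (ball (addE a i (Nat.log2 cand)) k i)))
            = true
        then ih a m i us (Nat.xor cand (tp (Nat.log2 cand))) else false := by
  unfold step
  simp only [force_eq, ch_if, beq_if]

theorem go_succ (k : ℕ) (sE : ℕ → Bool) (sF : ℕ → ℕ → Bool) (n a m i us cand : ℕ) :
    go k sE sF (n + 1) a m i us cand = step k sE sF (go k sE sF n) a m i us cand := rfl

theorem sat_mono {x y : ℕ} (h : ∀ j, B x j → B y j) (hx : sat x = true) : sat y = true := by
  rw [sat_iff] at *
  obtain ⟨i, j, l, h1, h2, h3, h4, h5, h6⟩ := hx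
  exact ⟨i, j, l, h1, h2, h3, h _ h4, h _ h5, h _ h6⟩

omit [Fintype V] [DecidableEq V] in
lemma Emb.add {W : V → V → ℕ} {a m : ℕ} {φ : ℕ → V} (hE : Emb W a m φ)
    (hs : ∀ u v, W u v = W v u) {i c : ℕ} (hi : i < m) (hc : c < m)
    (h : W (φ i) (φ c) ≠ 0) : Emb W (addE a i c) m φ := by
  have hi' : i < 24 := lt_of_lt_of_le hi hE.le
  have hc' : c < 24 := lt_of_lt_of_le hc hE.le
  refine ⟨hE.le, hE.inj, ?_, ?_⟩
  · intro x y hxy
    rw [Hadj_addE hi' hc'] at hxy
    rcases hxy with h1 | ⟨rfl, rfl⟩ | ⟨rfl, rfl⟩
    · exact hE.adj x y h1
    · exact ⟨hi, hc, h⟩
    · exact ⟨hc, hi, by rw [hs]; exact h⟩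
  · intro x y hxy
    rw [Hadj_addE hi' hc'] at *
    rcases hxy with h1 | ⟨rfl, rfl⟩ | ⟨rfl, rfl⟩
    · exact Or.inl (hE.symm x y h1)
    · exact Or.inr (Or.inr ⟨rfl, rfl⟩)
    · exact Or.inr (Or.inl ⟨rfl, rfl⟩)

/-- the invariant of the search -/
structure Inv (W : V → V → ℕ) (a m i us cand : ℕ) (φ : ℕ → V) : Prop where
  emb : Emb W a m φ
  lt : i < m
  done : ∀ j, j < i → sat (mask a j) = true
  us1 : ∀ j, j < m → ¬ B us j → sat (mask a j) = true
  us2 : ∀ j, B us j → j < m
  cand1 : ∀ j, B cand j → j < m
  comp : ∀ j, j < m → W (φ i) (φ j) ≠ 0 → Hadj a i j ∨ B cand j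

lemma not_B_zero (j : ℕ) : ¬ B 0 j := by simp [B]

/-- a new neighbour -/
lemma new_nbr {W : V → V → ℕ} {k : ℕ} (hW : Sparse W k) {a m i : ℕ} {φ : ℕ → V}
    (hE : Emb W a m φ) (hs : ¬ sat (mask a i) = true)
    (hc : ∀ j, j < m → W (φ i) (φ j) ≠ 0 → Hadj a i j) :
    ∃ t, W (φ i) t ≠ 0 ∧ ∀ j, j < m → φ j ≠ t := by
  set A : Finset ℕ := (Finset.range m).filter (fun j => (mask a i).testBit j = true) with hA
  have hA2 : A.card ≤ 2 := by
    by_contra hcon
    apply hs
    rw [sat_iff]
    obtain ⟨x, hx, y, hy, z, hz, hxy, hxz, hyz⟩ := Finset.two_lt_card.mp (not_le.mp hcon)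
    rw [hA, Finset.mem_filter] at hx hy hz
    exact ⟨x, y, z, hxy, hxz, hyz, hx.2, hy.2, hz.2⟩
  obtain ⟨t, ht, hW'⟩ := exists_nbr hW (φ i) (A.image φ) (Finset.card_image_le.trans hA2)
  refine ⟨t, hW', ?_⟩
  rintro j hj rfl
  apply ht
  apply Finset.mem_image_of_mem
  rw [hA, Finset.mem_filter, Finset.mem_range]
  exact ⟨hj, hc j hj hW'⟩

omit [DecidableEq V] in
lemma Emb.new {W : V → V → ℕ} {k : ℕ} (hW : Sparse W k) {a m i : ℕ} {φ : ℕ → V}
    (hE : Emb W a m φ) (hi : i < m) (hm : m ≠ 24) {t : V} (ht : W (φ i) t ≠ 0)
    (hn : ∀ j, j < m → φ j ≠ t) : Emb W (addE a i m) (m + 1) (Function.update φ m t) := by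
  have hle := hE.le
  have hold : ∀ j, j < m → Function.update φ m t j = φ j := fun j hj =>
    Function.update_of_ne (by omega) _ _
  have hnew : Function.update φ m t m = t := Function.update_self _ _ _
  have h0 : Emb W a (m + 1) (Function.update φ m t) := by
    refine ⟨by omega, ?_, ?_, hE.symm⟩
    · intro x y hx hy hxy
      rcases Nat.lt_succ_iff_lt_or_eq.mp hx with hx | rfl
      · rcases Nat.lt_succ_iff_lt_or_eq.mp hy with hy | rfl
        · rw [hold x hx, hold y hy] at hxy
          exact hE.inj x y hx hy hxy
        · rw [hold x hx, hnew] at hxy
          exact absurd hxy (hn x hx)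
      · rcases Nat.lt_succ_iff_lt_or_eq.mp hy with hy | rfl
        · rw [hold y hy, hnew] at hxy
          exact absurd hxy.symm (hn y hy)
        · rfl
    · intro x y hxy
      obtain ⟨h1, h2, h3⟩ := hE.adj x y hxy
      rw [hold x h1, hold y h2]
      exact ⟨by omega, by omega, h3⟩
  apply h0.add hW.symm (by omega) (by omega)
  rw [hold i hi, hnew]
  exact ht

/-- soundness of the search -/
theorem go_sound {W : V → V → ℕ} {k : ℕ} (hW : Sparse W k) (sE : ℕ → Bool) (sF : ℕ → ℕ → Bool)
    (Concl : Prop) (hE : ∀ a m φ, Emb W a m φ → sE a = true → Concl)
    (hF : ∀ a m φ, Emb W a m φ → (∀ j, j < m → sat (mask a j) = true) → sF a m = true → Concl) :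
    ∀ n a m i us cand φ, Inv W a m i us cand φ → go k sE sF n a m i us cand = true → Concl := by
  intro n
  induction n with
  | zero => intro a m i us cand φ _ h; exact absurd h (by simp [go])
  | succ n ih =>
    intro a m i us cand φ hI h
    rw [go_succ, step_eq] at h
    by_cases hs : sat (mask a i) = true
    · rw [if_pos hs] at h
      by_cases h1 : i + 1 = m
      · rw [if_pos h1] at h
        refine hF a m φ hI.emb ?_ h
        intro j hj
        rcases Nat.lt_or_ge j i with h2 | h2
        · exact hI.done j h2
        · have : j = i := by omega
          rw [this]; exact hs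
      · rw [if_neg h1] at h
        have hi1 : i + 1 < m := by have := hI.lt; omega
        have hdone : ∀ j, j < i + 1 → sat (mask a j) = true := by
          intro j hj
          rcases Nat.lt_or_ge j i with h2 | h2
          · exact hI.done j h2
          · have : j = i := by omega
            rw [this]; exact hs
        have hus1 : ∀ j, j < m → ¬ B (without us (tp i)) j → sat (mask a j) = true := by
          intro j hj hB
          rw [B_without, B_tp] at hB
          by_cases h2 : i = j
          · rw [← h2]; exact hs
          · exact hI.us1 j hj (fun h3 => hB ⟨h3, h2⟩)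
        have hus2 : ∀ j, B (without us (tp i)) j → j < m := by
          intro j hB
          rw [B_without] at hB
          exact hI.us2 j hB.1
        by_cases h3 : sat (mask a (i + 1)) = true
        · rw [if_pos h3] at h
          exact ih a m (i + 1) _ 0 φ ⟨hI.emb, hi1, hdone, hus1, hus2,
            fun j hj => absurd hj (not_B_zero j),
            fun j hj hW' => Or.inl (sat_adj hW hI.emb h3 hj hW')⟩ h
        · rw [if_neg h3] at h
          refine ih a m (i + 1) _ _ φ ⟨hI.emb, hi1, hdone, hus1, hus2, ?_, ?_⟩ h
          · intro j hj
            rw [B_without] at hj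
            exact hus2 j hj.1
          · intro j hj hW'
            rw [B_without]
            by_cases h4 : B (without us (tp i)) j
            · by_cases h5 : B (ball a k (i + 1)) j
              · left
                refine close hW hI.emb hi1 ?_ h5 hW'
                intro h6
                rw [← h6] at hW'
                exact hW' (hW.loop _)
              · exact Or.inr ⟨h4, h5⟩
            · left
              have h5 := hus1 j hj h4
              rw [hW.symm] at hW'
              exact hI.emb.symm _ _ (sat_adj hW hI.emb h5 hi1 hW')
    · rw [if_neg hs] at h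
      by_cases hc : cand = 0
      · rw [if_pos hc] at h
        subst hc
        have hc' : ∀ j, j < m → W (φ i) (φ j) ≠ 0 → Hadj a i j := fun j hj hW' =>
          (hI.comp j hj hW').resolve_right (not_B_zero j)
        obtain ⟨t, ht, hn⟩ := new_nbr hW hI.emb hs hc'
        by_cases hm : m = 24
        · exfalso
          have hcard : ((Finset.range m).image φ).card = Fintype.card V := by
            rw [Finset.card_image_of_injOn, Finset.card_range, hW.card, hm]
            intro x hx y hy hxy
            exact hI.emb.inj x y (by simpa using hx) (by simpa using hy) hxy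
          have huniv := Finset.card_eq_iff_eq_univ _ |>.mp hcard
          have hmem : t ∈ (Finset.range m).image φ := by rw [huniv]; exact Finset.mem_univ _
          obtain ⟨j, hj, hjt⟩ := Finset.mem_image.mp hmem
          exact hn j (by simpa using hj) hjt
        · rw [if_neg hm] at h
          have hnew := hI.emb.new hW hI.lt hm ht hn
          have hi24 : i < 24 := lt_of_lt_of_le hI.lt hI.emb.le
          have hm24 : m < 24 := lt_of_le_of_ne hI.emb.le hm
          have hmono : ∀ j x, B (mask a j) x → B (mask (addE a i m) j) x := by
            intro j x hx
            have : Hadj (addE a i m) j x := by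
              rw [Hadj_addE hi24 hm24]
              exact Or.inl hx
            exact this
          have hold : ∀ j, j < m → Function.update φ m t j = φ j := fun j hj =>
            Function.update_of_ne (by omega) _ _
          refine ih _ _ i _ 0 _ ⟨hnew, ?_, ?_, ?_, ?_, fun j hj => absurd hj (not_B_zero j), ?_⟩ h
          · have := hI.lt; omega
          · intro j hj
            exact sat_mono (hmono j) (hI.done j hj)
          · intro j hj hB
            rw [B_lor, B_tp, not_or] at hB
            exact sat_mono (hmono j) (hI.us1 j (by omega) hB.1)
          · intro j hB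
            rw [B_lor, B_tp] at hB
            rcases hB with hB | hB
            · have := hI.us2 j hB; omega
            · omega
          · intro j hj hW'
            left
            rw [Hadj_addE hi24 hm24]
            rcases Nat.lt_succ_iff_lt_or_eq.mp hj with hj | rfl
            · left
              rw [hold i hI.lt, hold j hj] at hW'
              exact hc' j hj hW'
            · exact Or.inr (Or.inl ⟨rfl, rfl⟩)
      · rw [if_neg hc] at h
        have hcB : B cand (Nat.log2 cand) := B_log2 hc
        generalize Nat.log2 cand = c at h hcB
        have hr : ∀ j, B (Nat.xor cand (tp c)) j ↔ B cand j ∧ j ≠ c := fun j =>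
          B_xor_tp _ _ _ hcB
        generalize Nat.xor cand (tp c) = r at h hr
        have hcm : c < m := hI.cand1 c hcB
        by_cases hWc : W (φ i) (φ c) = 0
        · have h2 : go k sE sF n a m i us r = true := by
            split_ifs at h <;> exact h
          refine ih a m i us r φ ⟨hI.emb, hI.lt, hI.done, hI.us1, hI.us2, ?_, ?_⟩ h2
          · intro j hj
            exact hI.cand1 j ((hr j).mp hj).1
          · intro j hj hW'
            rcases hI.comp j hj hW' with h3 | h3
            · exact Or.inl h3
            · right
              rw [hr]
              refine ⟨h3, ?_⟩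
              rintro rfl
              exact hW' hWc
        · have hadd := hI.emb.add hW.symm hI.lt hcm hWc
          have hi24 : i < 24 := lt_of_lt_of_le hI.lt hI.emb.le
          have hc24 : c < 24 := lt_of_lt_of_le hcm hI.emb.le
          have hH : ∀ x y, Hadj (addE a i c) x y ↔ Hadj a x y ∨ (x = i ∧ y = c) ∨ (x = c ∧ y = i) :=
            Hadj_addE hi24 hc24 a
          generalize addE a i c = a' at h hadd hH
          have hmono : ∀ j x, B (mask a j) x → B (mask a' j) x := by
            intro j x hx
            have : Hadj a' j x := (hH j x).mpr (Or.inl hx)
            exact this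
          by_cases hsE : sE a' = true
          · exact hE a' m φ hadd hsE
          rw [if_neg hsE] at h
          have hus1 : ∀ j, j < m → ¬ B (if sat (mask a' c) = true then without us (tp c) else us) j →
              sat (mask a' j) = true := by
            intro j hj hB
            split_ifs at hB with h4
            · rw [B_without, B_tp] at hB
              by_cases h5 : c = j
              · rw [← h5]; exact h4
              · exact sat_mono (hmono j) (hI.us1 j hj (fun h6 => hB ⟨h6, h5⟩))
            · exact sat_mono (hmono j) (hI.us1 j hj hB)
          have hus2 : ∀ j, B (if sat (mask a' c) = true then without us (tp c) else us) j →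
              j < m := by
            intro j hB
            split_ifs at hB
            · rw [B_without] at hB
              exact hI.us2 j hB.1
            · exact hI.us2 j hB
          generalize (if sat (mask a' c) = true then without us (tp c) else us) = us' at h hus1 hus2
          have hdone : ∀ j, j < i → sat (mask a' j) = true := fun j hj =>
            sat_mono (hmono j) (hI.done j hj)
          have hcomp : ∀ j, j < m → W (φ i) (φ j) ≠ 0 → Hadj a' i j ∨ B r j := by
            intro j hj hW'
            rcases hI.comp j hj hW' with h3 | h3
            · exact Or.inl ((hH i j).mpr (Or.inl h3))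
            · by_cases h4 : j = c
              · left
                rw [hH]
                exact Or.inr (Or.inl ⟨rfl, h4⟩)
              · right
                rw [hr]
                exact ⟨h3, h4⟩
          by_cases hr0 : r = 0
          · rw [if_pos hr0] at h
            have h2 : go k sE sF n a' m i us' 0 = true := by
              by_contra hcon
              rw [if_neg hcon] at h
              exact absurd h (by simp)
            refine ih a' m i us' 0 φ ⟨hadd, hI.lt, hdone, hus1, hus2,
              fun j hj => absurd hj (not_B_zero j), ?_⟩ h2
            intro j hj hW'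
            have := hcomp j hj hW'
            rwa [hr0] at this
          rw [if_neg hr0] at h
          by_cases hs' : sat (mask a' i) = true
          · rw [if_pos hs'] at h
            have h2 : go k sE sF n a' m i us' 0 = true := by
              by_contra hcon
              rw [if_neg hcon] at h
              exact absurd h (by simp)
            exact ih a' m i us' 0 φ ⟨hadd, hI.lt, hdone, hus1, hus2,
              fun j hj => absurd hj (not_B_zero j),
              fun j hj hW' => Or.inl (sat_adj hW hadd hs' hj hW')⟩ h2
          · rw [if_neg hs'] at h
            have h2 : go k sE sF n a' m i us' (without r (ball a' k i)) = true := by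
              by_contra hcon
              rw [if_neg hcon] at h
              exact absurd h (by simp)
            refine ih a' m i us' _ φ ⟨hadd, hI.lt, hdone, hus1, hus2, ?_, ?_⟩ h2
            · intro j hj
              rw [B_without] at hj
              exact hI.cand1 j ((hr j).mp hj.1).1
            · intro j hj hW'
              rw [B_without]
              rcases hcomp j hj hW' with h3 | h3
              · exact Or.inl h3
              · by_cases h5 : B (ball a' k i) j
                · left
                  refine close hW hadd hI.lt ?_ h5 hW'
                  intro h6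
                  rw [← h6] at hW'
                  exact hW' (hW.loop _)
                · exact Or.inr ⟨h3, h5⟩

end Pool.Agent.Lib.MP_c32163_co.DV
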