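import Pool.Agent.Lib.MP_c32163_co.DV.Two

/-!
A small dense set in a cubic weighted graph with 24 vertices gives a good pair.
-/

open Finset

namespace Pool.Agent.Lib.MP_c32163_co.DV

variable {V : Type*} [Fintype V] [DecidableEq V]

/-- a set with at most six vertices and as many edges as vertices gives a good pair -/
theorem small_good {W : V → V → ℕ} (hV : Fintype.card V = 24) (hs : ∀ u v, W u v = W v u)
    (hr : ∀ u, ∑ v, W u v = 3) {S : Finset V} (hS : S.Nonempty) (h6 : S.card ≤ 6)
    (hq : 2 * S.card ≤ q W S) : GoodPair W := by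
  classical
  set N : Finset V := Finset.univ.filter (fun i => i ∉ S ∧ ∃ u ∈ S, W i u ≠ 0) with hN
  set T : Finset V := Finset.univ.filter (fun i => i ∉ S ∧ i ∉ N) with hT
  have hSN : Disjoint S N := by
    rw [Finset.disjoint_left]
    intro i hi hiN
    rw [hN, Finset.mem_filter] at hiN
    exact hiN.2.1 hi
  have hST : Disjoint (S ∪ N) T := by
    rw [Finset.disjoint_left]
    intro i hi hiT
    rw [hT, Finset.mem_filter] at hiT
    rcases Finset.mem_union.mp hi with h | h
    · exact hiT.2.1 h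
    · exact hiT.2.2 h
  have huniv : (Finset.univ : Finset V) = (S ∪ N) ∪ T := by
    ext i
    simp only [Finset.mem_univ, Finset.mem_union, true_iff]
    by_cases h1 : i ∈ S
    · exact Or.inl (Or.inl h1)
    by_cases h2 : i ∈ N
    · exact Or.inl (Or.inr h2)
    right
    rw [hT, Finset.mem_filter]
    exact ⟨Finset.mem_univ _, h1, h2⟩
  have hsplit : ∀ f : V → ℕ, ∑ v, f v = ∑ v ∈ S, f v + ∑ v ∈ N, f v + ∑ v ∈ T, f v := by
    intro f
    rw [huniv, Finset.sum_union hST, Finset.sum_union hSN]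
  have hnoST : ∀ u ∈ S, ∀ t ∈ T, W u t = 0 := by
    intro u hu t ht
    by_contra hne
    rw [hT, Finset.mem_filter] at ht
    apply ht.2.2
    rw [hN, Finset.mem_filter]
    exact ⟨Finset.mem_univ _, ht.2.1, u, hu, by rw [hs]; exact hne⟩
  have hcut : ∀ A : Finset V, 3 * A.card = ∑ u ∈ A, ∑ v ∈ S, W u v + ∑ u ∈ A, ∑ v ∈ N, W u v
      + ∑ u ∈ A, ∑ v ∈ T, W u v := by
    intro A
    rw [← Finset.sum_add_distrib, ← Finset.sum_add_distrib]
    have : ∀ u ∈ A, ∑ v ∈ S, W u v + ∑ v ∈ N, W u v + ∑ v ∈ T, W u v = 3 := by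
      intro u _
      rw [← hsplit, hr]
    rw [Finset.sum_congr rfl this]
    simp [mul_comm]
  have hcomm : ∀ A B : Finset V, ∑ u ∈ A, ∑ v ∈ B, W u v = ∑ u ∈ B, ∑ v ∈ A, W u v := by
    intro A B
    rw [Finset.sum_comm]
    exact Finset.sum_congr rfl fun u _ => Finset.sum_congr rfl fun v _ => hs _ _
  have hST0 : ∑ u ∈ S, ∑ v ∈ T, W u v = 0 :=
    Finset.sum_eq_zero fun u hu => Finset.sum_eq_zero fun t ht => hnoST u hu t ht
  have hNge : N.card ≤ ∑ u ∈ N, ∑ v ∈ S, W u v := by
    rw [Finset.card_eq_sum_ones]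
    refine Finset.sum_le_sum fun u hu => ?_
    rw [hN, Finset.mem_filter] at hu
    obtain ⟨-, -, v, hv, hne⟩ := hu
    have := Finset.single_le_sum (f := fun v => W u v) (fun _ _ => Nat.zero_le _) hv
    omega
  have c1 := hcut S
  have c2 := hcut N
  have c3 := hcut T
  have c4 := hcomm N S
  have c5 := hcomm T S
  have c6 := hcomm T N
  have hcard : S.card + N.card + T.card = 24 := by
    rw [← hV, ← Finset.card_univ, huniv, Finset.card_union_of_disjoint hST,
      Finset.card_union_of_disjoint hSN]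
  have hSpos := hS.card_pos
  unfold q at hq
  have hqT : 2 * T.card ≤ q W T := by
    unfold q
    omega
  have hTne : T.Nonempty := by
    rw [← Finset.card_pos]
    omega
  refine ⟨_, _, good_indicator hS (by unfold q; omega), good_indicator hTne hqT, ?_, ?_⟩
  · intro u
    by_cases h1 : u ∈ S
    · have h2 : u ∉ T := fun h => (Finset.disjoint_left.mp hST) (Finset.mem_union_left _ h1) h
      simp [h2]
    · simp [h1]
  · intro u v
    by_cases h1 : u ∈ S
    · by_cases h2 : v ∈ T
      · simp [hnoST u h1 v h2]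
      · simp [h2]
    · simp [h1]

end Pool.Agent.Lib.MP_c32163_co.DV
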