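import Pool.Agent.Lib.MP_c32163_co.DV.Bits
import Pool.Agent.Lib.MP_c32163_co.DV.Small

/-!
Soundness of the search engine.
-/

open Finset

namespace Pool.Agent.Lib.MP_c32163_co.DV

variable {V : Type*} [Fintype V] [DecidableEq V]

/-- a cubic simple graph on 24 vertices in which every set of at most `k + 1` vertices contains
fewer edges than vertices -/
structure Sparse (W : V → V → ℕ) (k : ℕ) : Prop where
  card : Fintype.card V = 24
  symm : ∀ u v, W u v = W v u
  row : ∀ u, ∑ v, W u v = 3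
  loop : ∀ u, W u u = 0
  le1 : ∀ u v, W u v ≤ 1
  sparse : ∀ S : Finset V, S.Nonempty → S.card ≤ k + 1 → q W S < 2 * S.card

/-- `φ` embeds the labels `0, ..., m - 1` with their adjacencies -/
structure Emb (W : V → V → ℕ) (a m : ℕ) (φ : ℕ → V) : Prop where
  le : m ≤ 24
  inj : ∀ i j, i < m → j < m → φ i = φ j → i = j
  adj : ∀ i j, Hadj a i j → i < m ∧ j < m ∧ W (φ i) (φ j) ≠ 0
  symm : ∀ i j, Hadj a i j → Hadj a j i

lemma nbr3 {W : V → V → ℕ} {k : ℕ} (hW : Sparse W k) {u x y z t : V} (hxy : x ≠ y) (hxz : x ≠ z)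
    (hyz : y ≠ z) (hx : W u x ≠ 0) (hy : W u y ≠ 0) (hz : W u z ≠ 0) (ht : W u t ≠ 0) :
    t = x ∨ t = y ∨ t = z := by
  by_contra hcon
  push Not at hcon
  obtain ⟨h1, h2, h3⟩ := hcon
  have hsub : ∑ v ∈ ({x, y, z, t} : Finset V), W u v ≤ ∑ v, W u v :=
    Finset.sum_le_sum_of_subset (Finset.subset_univ _)
  rw [hW.row, Finset.sum_insert, Finset.sum_insert, Finset.sum_insert, Finset.sum_singleton] at hsub
  · omega
  · simpa using h3.symm
  · simp only [Finset.mem_insert, Finset.mem_singleton, not_or]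
    exact ⟨hyz, h2.symm⟩
  · simp only [Finset.mem_insert, Finset.mem_singleton, not_or]
    exact ⟨hxy, hxz, h1.symm⟩

lemma exists_nbr {W : V → V → ℕ} {k : ℕ} (hW : Sparse W k) (u : V) (A : Finset V)
    (hA : A.card ≤ 2) : ∃ t, t ∉ A ∧ W u t ≠ 0 := by
  by_contra hcon
  push Not at hcon
  have h1 : ∑ v, W u v = ∑ v ∈ A, W u v := by
    symm
    apply Finset.sum_subset (Finset.subset_univ _)
    intro t _ ht
    exact hcon t ht
  have h2 : ∑ v ∈ A, W u v ≤ ∑ _v ∈ A, 1 := Finset.sum_le_sum fun v _ => hW.le1 u v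
  rw [hW.row] at h1
  simp only [Finset.sum_const, smul_eq_mul, mul_one] at h2
  omega

lemma sat_closed {W : V → V → ℕ} {k : ℕ} (hW : Sparse W k) {a m : ℕ} {φ : ℕ → V}
    (hE : Emb W a m φ) {i : ℕ} (hs : sat (mask a i) = true) {t : V}
    (ht : W (φ i) t ≠ 0) : ∃ j, j < m ∧ Hadj a i j ∧ φ j = t := by
  obtain ⟨x, y, z, hxy, hxz, hyz, hx, hy, hz⟩ := (sat_iff _).mp hs
  have ex := hE.adj i x hx
  have ey := hE.adj i y hy
  have ez := hE.adj i z hz
  rcases nbr3 hW (fun h => hxy (hE.inj x y ex.2.1 ey.2.1 h)) (fun h => hxz (hE.inj x z ex.2.1 ez.2.1 h))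
    (fun h => hyz (hE.inj y z ey.2.1 ez.2.1 h)) ex.2.2 ey.2.2 ez.2.2 ht with h | h | h
  · exact ⟨x, ex.2.1, hx, h.symm⟩
  · exact ⟨y, ey.2.1, hy, h.symm⟩
  · exact ⟨z, ez.2.1, hz, h.symm⟩

lemma sat_adj {W : V → V → ℕ} {k : ℕ} (hW : Sparse W k) {a m : ℕ} {φ : ℕ → V}
    (hE : Emb W a m φ) {i j : ℕ} (hs : sat (mask a i) = true) (hj : j < m)
    (ht : W (φ i) (φ j) ≠ 0) : Hadj a i j := by
  obtain ⟨j', hj', h1, h2⟩ := sat_closed hW hE hs ht
  have := hE.inj j' j hj' hj h2
  rwa [this] at h1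

/-- ordered adjacent pairs of labels in `S` -/
def qH (a : ℕ) (S : Finset ℕ) : ℕ := ∑ u ∈ S, ∑ v ∈ S, ((mask a u).testBit v).toNat

/-- `j` can be reached from `i` inside a set of at most `t + 1` labels -/
def Rch (a m i t j : ℕ) : Prop :=
  ∃ S : Finset ℕ, (∀ s ∈ S, s < m) ∧ i ∈ S ∧ j ∈ S ∧ S.card ≤ t + 1 ∧ 2 * S.card ≤ qH a S + 2

omit [Fintype V] [DecidableEq V] in
lemma Rch.succ {W : V → V → ℕ} {a m : ℕ} {φ : ℕ → V} (hE : Emb W a m φ) {i t j' j : ℕ}
    (h : Rch a m i t j') (hj : Hadj a j' j) : Rch a m i (t + 1) j := by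
  obtain ⟨S, hS, hi, hj', hc, hq⟩ := h
  by_cases hjS : j ∈ S
  · exact ⟨S, hS, hi, hjS, by omega, hq⟩
  · refine ⟨insert j S, ?_, Finset.mem_insert_of_mem hi, Finset.mem_insert_self _ _, ?_, ?_⟩
    · intro s hs
      rcases Finset.mem_insert.mp hs with rfl | h
      · exact (hE.adj _ _ hj).2.1
      · exact hS s h
    · rw [Finset.card_insert_of_notMem hjS]
      omega
    · rw [Finset.card_insert_of_notMem hjS]
      have h1 : qH a S + 2 ≤ qH a (insert j S) := by
        unfold qH at *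
        rw [Finset.sum_insert hjS, Finset.sum_insert hjS]
        have e1 : ∀ u ∈ S, ∑ v ∈ insert j S, ((mask a u).testBit v).toNat =
            ((mask a u).testBit j).toNat + ∑ v ∈ S, ((mask a u).testBit v).toNat :=
          fun u _ => Finset.sum_insert hjS
        rw [Finset.sum_congr rfl e1, Finset.sum_add_distrib]
        have e2 : 1 ≤ ∑ u ∈ S, ((mask a u).testBit j).toNat := by
          have := Finset.single_le_sum (f := fun u => ((mask a u).testBit j).toNat)
            (fun _ _ => Nat.zero_le _) hj'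
          have e3 : (mask a j').testBit j = true := hj
          simp only [e3, Bool.toNat_true] at this
          exact this
        have e4 : 1 ≤ ∑ v ∈ S, ((mask a j).testBit v).toNat := by
          have := Finset.single_le_sum (f := fun v => ((mask a j).testBit v).toNat)
            (fun _ _ => Nat.zero_le _) hj'
          have e3 : (mask a j).testBit j' = true := hE.symm _ _ hj
          simp only [e3, Bool.toNat_true] at this
          exact this
        omega
      omega

lemma Rch.mono {a m i t j : ℕ} (h : Rch a m i t j) : Rch a m i (t + 1) j := by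
  obtain ⟨S, hS, hi, hj', hc, hq⟩ := h
  exact ⟨S, hS, hi, hj', by omega, hq⟩

lemma grow_succ (a k b f : ℕ) : grow a (k + 1) b f =
    grow a k (Nat.lor b (without (un a 24 f) b)) (without (un a 24 f) b) := by
  have : grow a (k + 1) b f = force (un a 24 f) fun x =>
      force (without x b) fun f' => force (Nat.lor b f') fun b' => grow a k b' f' := rfl
  rw [this]
  simp only [force_eq]

omit [Fintype V] [DecidableEq V] in
lemma grow_sound {W : V → V → ℕ} {a m : ℕ} {φ : ℕ → V} (hE : Emb W a m φ) (i : ℕ) (k : ℕ) :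
    ∀ b f t, (∀ j, B b j → Rch a m i t j) → (∀ j, B f j → Rch a m i t j) →
      ∀ j, B (grow a k b f) j → Rch a m i (t + k) j := by
  induction k with
  | zero => intro b f t hb _ j hj; exact hb j hj
  | succ k ih =>
    intro b f t hb hf j hj
    rw [grow_succ] at hj
    have hf' : ∀ j, B (without (un a 24 f) b) j → Rch a m i (t + 1) j := by
      intro j hj
      rw [B_without] at hj
      obtain ⟨c, hc, hcj⟩ := un_sound a 24 f j hj.1
      exact (hf c hc).succ hE hcj
    have := ih _ _ (t + 1) (fun j hj => by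
      rw [B_lor] at hj
      rcases hj with h | h
      · exact (hb j h).mono
      · exact hf' j h) hf' j hj
    rwa [show t + (k + 1) = t + 1 + k by omega]

omit [Fintype V] [DecidableEq V] in
lemma ball_sound {W : V → V → ℕ} {a m : ℕ} {φ : ℕ → V} (hE : Emb W a m φ) {i : ℕ} (hi : i < m)
    (k : ℕ) {j : ℕ} (hj : B (ball a k i) j) : Rch a m i k j := by
  have h0 : ∀ j, B (tp i) j → Rch a m i 0 j := by
    intro j hj
    rw [B_tp] at hj
    subst hj
    exact ⟨{i}, by simpa using hi, by simp, by simp, by simp, by simp⟩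
  have := grow_sound hE i k (tp i) (tp i) 0 h0 h0 j hj
  rwa [Nat.zero_add] at this

/-- labels at distance at most `k` are not adjacent outside of `a` -/
lemma close {W : V → V → ℕ} {k : ℕ} (hW : Sparse W k) {a m : ℕ} {φ : ℕ → V}
    (hE : Emb W a m φ) {i j : ℕ} (hi : i < m) (hij : i ≠ j) (hj : B (ball a k i) j)
    (ht : W (φ i) (φ j) ≠ 0) : Hadj a i j := by
  by_contra hno
  have hno' : ¬ Hadj a j i := fun h => hno (hE.symm _ _ h)
  obtain ⟨S, hS, hiS, hjS, hc, hq⟩ := ball_sound hE hi k hj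
  have hinj : Set.InjOn φ (S : Set ℕ) := by
    intro x hx y hy hxy
    exact hE.inj x y (hS x hx) (hS y hy) hxy
  have hcard : (S.image φ).card = S.card := Finset.card_image_of_injOn hinj
  have hne : (S.image φ).Nonempty := ⟨φ i, Finset.mem_image_of_mem φ hiS⟩
  have h1 := hW.sparse (S.image φ) hne (by rw [hcard]; exact hc)
  rw [hcard] at h1
  have h2 : q W (S.image φ) = ∑ u ∈ S, ∑ v ∈ S, W (φ u) (φ v) := by
    unfold q
    rw [Finset.sum_image hinj]
    exact Finset.sum_congr rfl fun u _ => Finset.sum_image hinj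
  have h3 : ∑ u ∈ S, ∑ v ∈ S, W (φ u) (φ v) = ∑ p ∈ S ×ˢ S, W (φ p.1) (φ p.2) :=
    (Finset.sum_product' S S fun u v => W (φ u) (φ v)).symm
  have h4 : qH a S = ∑ p ∈ S ×ˢ S, ((mask a p.1).testBit p.2).toNat :=
    (Finset.sum_product' S S fun u v => ((mask a u).testBit v).toNat).symm
  have m1 : (i, j) ∈ S ×ˢ S := Finset.mem_product.mpr ⟨hiS, hjS⟩
  have m2 : (j, i) ∈ (S ×ˢ S).erase (i, j) := by
    rw [Finset.mem_erase]
    exact ⟨fun h => hij (congrArg Prod.snd h), Finset.mem_product.mpr ⟨hjS, hiS⟩⟩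
  have h5 := Finset.add_sum_erase (S ×ˢ S) (fun p : ℕ × ℕ => W (φ p.1) (φ p.2)) m1
  have h6 := Finset.add_sum_erase _ (fun p : ℕ × ℕ => W (φ p.1) (φ p.2)) m2
  have h7 := Finset.add_sum_erase (S ×ˢ S) (fun p : ℕ × ℕ => ((mask a p.1).testBit p.2).toNat) m1
  have h8 := Finset.add_sum_erase _ (fun p : ℕ × ℕ => ((mask a p.1).testBit p.2).toNat) m2
  have z1 : (mask a i).testBit j = false := by
    cases h : (mask a i).testBit j
    · rfl
    · exact absurd h hno
  have z2 : (mask a j).testBit i = false := by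
    cases h : (mask a j).testBit i
    · rfl
    · exact absurd h hno'
  have w2 : W (φ j) (φ i) ≠ 0 := by rw [hW.symm]; exact ht
  have h9 : ∑ p ∈ ((S ×ˢ S).erase (i, j)).erase (j, i), ((mask a p.1).testBit p.2).toNat ≤
      ∑ p ∈ ((S ×ˢ S).erase (i, j)).erase (j, i), W (φ p.1) (φ p.2) := by
    refine Finset.sum_le_sum fun p _ => ?_
    by_cases hH : Hadj a p.1 p.2
    · have e1 : (mask a p.1).testBit p.2 = true := hH
      have e2 := (hE.adj _ _ hH).2.2
      rw [e1, Bool.toNat_true]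
      exact Nat.one_le_iff_ne_zero.mpr e2
    · have e1 : (mask a p.1).testBit p.2 = false := by
        cases h : (mask a p.1).testBit p.2
        · rfl
        · exact absurd h hH
      rw [e1, Bool.toNat_false]
      exact Nat.zero_le _
  simp only [z1, z2, Bool.toNat_false, zero_add] at h7 h8
  rw [h2, h3, ← h5, ← h6] at h1
  rw [h4, ← h7, ← h8] at hq
  have w1 := Nat.one_le_iff_ne_zero.mpr ht
  have w3 := Nat.one_le_iff_ne_zero.mpr w2
  clear h2 h3 h4 h5 h6 h7 h8 hcard
  generalize ∑ p ∈ ((S ×ˢ S).erase (i, j)).erase (j, i), ((mask a p.1).testBit p.2).toNat = X at *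
  generalize ∑ p ∈ ((S ×ˢ S).erase (i, j)).erase (j, i), W (φ p.1) (φ p.2) = Y at *
  simp only at h1
  generalize W (φ i) (φ j) = wa at *
  generalize W (φ j) (φ i) = wb at *
  omega

end Pool.Agent.Lib.MP_c32163_co.DV
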