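import Mathlib

/-!
Cubic weighted graphs: two good functions with disjoint non-adjacent supports give a test vector.
-/

open Finset

namespace Pool.Agent.Lib.MP_c32163_co.DV

variable {V : Type*} [Fintype V] [DecidableEq V]

/-- quadratic form of the weights -/
def qf (W : V → V → ℕ) (f : V → ℝ) : ℝ := ∑ u, ∑ v, (W u v : ℝ) * (f u * f v)

/-- a good function: nonnegative, not zero, `⟨f, W f⟩ ≥ 2 ⟨f, f⟩` -/
structure Good (W : V → V → ℕ) (f : V → ℝ) : Prop where
  nonneg : ∀ u, 0 ≤ f u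
  pos : 0 < ∑ u, f u
  ge : 2 * ∑ u, f u ^ 2 ≤ qf W f

/-- two good functions with disjoint, non-adjacent supports -/
def GoodPair (W : V → V → ℕ) : Prop :=
  ∃ f g : V → ℝ, Good W f ∧ Good W g ∧ (∀ u, f u * g u = 0) ∧
    ∀ u v, (W u v : ℝ) * (f u * g v) = 0

omit [DecidableEq V] in
lemma energy_eq {W : V → V → ℕ} (hs : ∀ u v, W u v = W v u) (hr : ∀ u, ∑ v, W u v = 3)
    (y : V → ℝ) : ∑ u, ∑ v, (W u v : ℝ) * (y u - y v) ^ 2 = 6 * ∑ u, y u ^ 2 - 2 * qf W y := by
  have hrR : ∀ u, ∑ v, (W u v : ℝ) = 3 := fun u => by exact_mod_cast hr u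
  have h1 : ∑ u, ∑ v, (W u v : ℝ) * y u ^ 2 = 3 * ∑ u, y u ^ 2 := by
    rw [Finset.mul_sum]
    exact Finset.sum_congr rfl fun u _ => by rw [← Finset.sum_mul, hrR]
  have h2 : ∑ u, ∑ v, (W u v : ℝ) * y v ^ 2 = 3 * ∑ u, y u ^ 2 := by
    rw [Finset.sum_comm, ← h1]
    exact Finset.sum_congr rfl fun u _ => Finset.sum_congr rfl fun v _ => by rw [hs]
  have h3 : ∑ u, ∑ v, (W u v : ℝ) * (y u - y v) ^ 2 =
      ∑ u, ∑ v, (W u v : ℝ) * y u ^ 2 + ∑ u, ∑ v, (W u v : ℝ) * y v ^ 2
        - 2 * ∑ u, ∑ v, (W u v : ℝ) * (y u * y v) := by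
    rw [Finset.mul_sum, ← Finset.sum_add_distrib, ← Finset.sum_sub_distrib]
    refine Finset.sum_congr rfl fun u _ => ?_
    rw [Finset.mul_sum, ← Finset.sum_add_distrib, ← Finset.sum_sub_distrib]
    exact Finset.sum_congr rfl fun v _ => by ring
  rw [h3, h1, h2, qf]
  ring

omit [DecidableEq V] in
/-- the test vector -/
theorem GoodPair.test {W : V → V → ℕ} (hs : ∀ u v, W u v = W v u) (hr : ∀ u, ∑ v, W u v = 3)
    (h : GoodPair W) : ∃ y : V → ℝ, ∑ u, y u = 0 ∧ y ≠ 0 ∧
      ∑ u, ∑ v, (W u v : ℝ) * (y u - y v) ^ 2 ≤ 2 * ∑ u, y u ^ 2 := by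
  obtain ⟨f, g, hf, hg, hd, hn⟩ := h
  set F := ∑ u, f u with hF
  set G := ∑ u, g u with hG
  have hFp : 0 < F := hf.pos
  have hGp : 0 < G := hg.pos
  refine ⟨fun u => G * f u - F * g u, ?_, ?_, ?_⟩
  · rw [Finset.sum_sub_distrib, ← Finset.mul_sum, ← Finset.mul_sum, ← hF, ← hG]
    ring
  · intro h0
    obtain ⟨u, -, hu⟩ := Finset.exists_ne_zero_of_sum_ne_zero hFp.ne'
    have h1 := congrFun h0 u
    simp only [Pi.zero_apply] at h1
    have h2 := hd u
    have h3 : g u = 0 := (mul_eq_zero.mp h2).resolve_left hu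
    rw [h3, mul_zero, sub_zero] at h1
    rcases mul_eq_zero.mp h1 with h | h
    · exact hGp.ne' h
    · exact hu h
  · rw [energy_eq hs hr]
    have hsq : ∑ u, (G * f u - F * g u) ^ 2 = G ^ 2 * ∑ u, f u ^ 2 + F ^ 2 * ∑ u, g u ^ 2 := by
      rw [Finset.mul_sum, Finset.mul_sum, ← Finset.sum_add_distrib]
      refine Finset.sum_congr rfl fun u _ => ?_
      have := hd u
      linear_combination (-2 * G * F) * this
    have hq : qf W (fun u => G * f u - F * g u) = G ^ 2 * qf W f + F ^ 2 * qf W g := by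
      unfold qf
      rw [Finset.mul_sum, Finset.mul_sum, ← Finset.sum_add_distrib]
      refine Finset.sum_congr rfl fun u _ => ?_
      rw [Finset.mul_sum, Finset.mul_sum, ← Finset.sum_add_distrib]
      refine Finset.sum_congr rfl fun v _ => ?_
      have e1 := hn u v
      have e2 : (W u v : ℝ) * (f v * g u) = 0 := by rw [hs]; exact hn v u
      linear_combination (-G * F) * e1 + (-G * F) * e2
    rw [hsq, hq]
    have e1 := mul_le_mul_of_nonneg_left hf.ge (sq_nonneg G)
    have e2 := mul_le_mul_of_nonneg_left hg.ge (sq_nonneg F)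
    linarith

/-- ordered pairs inside a set, with weights -/
def q (W : V → V → ℕ) (S : Finset V) : ℕ := ∑ u ∈ S, ∑ v ∈ S, W u v

lemma good_indicator {W : V → V → ℕ} {S : Finset V} (hS : S.Nonempty) (h : 2 * S.card ≤ q W S) :
    Good W (fun u => if u ∈ S then 1 else 0) := by
  refine ⟨fun u => by split_ifs <;> norm_num, ?_, ?_⟩
  · rw [Finset.sum_boole]
    simp only [Finset.filter_univ_mem]
    exact_mod_cast hS.card_pos
  · have h1 : ∑ u : V, (if u ∈ S then (1:ℝ) else 0) ^ 2 = S.card := by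
      have : ∀ u : V, (if u ∈ S then (1:ℝ) else 0) ^ 2 = if u ∈ S then 1 else 0 := by
        intro u; split_ifs <;> norm_num
      rw [Finset.sum_congr rfl fun u _ => this u, Finset.sum_boole]
      simp
    have h2 : qf W (fun u => if u ∈ S then 1 else 0) = q W S := by
      unfold qf q
      push_cast
      have e1 : ∀ u, ∑ v, (W u v : ℝ) * ((if u ∈ S then 1 else 0) * if v ∈ S then 1 else 0) =
          if u ∈ S then ∑ v ∈ S, (W u v : ℝ) else 0 := by
        intro u
        split_ifs with hu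
        · simp only [mul_ite, mul_one, mul_zero]
          rw [Finset.sum_ite_mem, Finset.univ_inter]
        · simp
      rw [Finset.sum_congr rfl fun u _ => e1 u, Finset.sum_ite_mem, Finset.univ_inter]
    rw [h1, h2]
    exact_mod_cast h

end Pool.Agent.Lib.MP_c32163_co.DV
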